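import Pool.Agent.FBP.Targets

/-!
# Project FBP: basic lemmas on `phi` and `IsSol` (proved)
-/

set_option autoImplicit false

namespace FBP

open Finset

theorem Good.sm1 {R t Q k : ℝ} (h : Good R t Q k) : Sm R t :=
  ⟨h.1, h.2.1, h.2.2.1, h.2.2.2.1⟩

theorem Good.sm2 {R t Q k : ℝ} (h : Good R t Q k) : Sm Q k := by
  obtain ⟨h1, h2, h3, h4, h5, h6, h7, h8, h9, h10⟩ := h
  refine ⟨h5, by linarith, h6, by linarith⟩

theorem phi_mem {R t z : ℝ} (h : Sm R t) (b : Bool) (h0 : 0 ≤ z) (h1 : z ≤ 1 / 2) :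
    0 ≤ phi R t b z ∧ phi R t b z ≤ 3 / 100 := by
  obtain ⟨hR, hR', ht, ht'⟩ := h
  cases b with
  | false =>
    simp only [phi, Bool.false_eq_true, if_false]
    constructor
    · positivity
    · nlinarith
  | true =>
    simp only [phi, if_true]
    have h2 : 0 < 1 - z := by linarith
    have h3 : t / (1 - z) ≤ 2 * t := by
      rw [div_le_iff₀ h2]; nlinarith
    constructor
    · positivity
    · linarith

/-- `phi` is increasing and contracts by `1/25`. -/
theorem phi_sub {R t z z' : ℝ} (h : Sm R t) (b : Bool) (_h0 : 0 ≤ z) (h1 : z ≤ z')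
    (h2 : z' ≤ 1 / 2) :
    0 ≤ phi R t b z' - phi R t b z ∧ phi R t b z' - phi R t b z ≤ 1 / 25 * (z' - z) := by
  obtain ⟨hR, hR', ht, ht'⟩ := h
  have hz : 0 ≤ z' - z := by linarith
  cases b with
  | false =>
    simp only [phi, Bool.false_eq_true, if_false]
    constructor
    · nlinarith
    · nlinarith
  | true =>
    simp only [phi, if_true]
    have e1 : 0 < 1 - z := by linarith
    have e2 : 0 < 1 - z' := by linarith
    have e3 : R + t / (1 - z') - (R + t / (1 - z)) = t * (z' - z) / ((1 - z') * (1 - z)) := by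
      field_simp
      ring
    rw [e3]
    constructor
    · positivity
    · rw [div_le_iff₀ (by positivity)]
      have e4 : 1 / 4 ≤ (1 - z') * (1 - z) := by nlinarith
      nlinarith [mul_nonneg hz (by linarith : 0 ≤ (1 - z') * (1 - z) - 1 / 4),
        mul_nonneg hz (by linarith : 0 ≤ 1 / 100 - t)]

theorem phi_mono {R t z z' : ℝ} (h : Sm R t) (b : Bool) (h0 : 0 ≤ z) (h1 : z ≤ z')
    (h2 : z' ≤ 1 / 2) : phi R t b z ≤ phi R t b z' := by
  have := (phi_sub h b h0 h1 h2).1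
  linarith

/-- `phi` is `1/25`-Lipschitz on `[0, 1/2]`. -/
theorem phi_lip {R t z z' : ℝ} (h : Sm R t) (b : Bool) (h0 : 0 ≤ z) (h1 : z ≤ 1 / 2)
    (h2 : 0 ≤ z') (h3 : z' ≤ 1 / 2) :
    |phi R t b z - phi R t b z'| ≤ 1 / 25 * |z - z'| := by
  rcases le_total z z' with hz | hz
  · have := phi_sub h b h0 hz h3
    rw [abs_sub_comm, abs_of_nonneg this.1, abs_sub_comm, abs_of_nonneg (by linarith)]
    exact this.2
  · have := phi_sub h b h2 hz h1
    rw [abs_of_nonneg this.1, abs_of_nonneg (by linarith)]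
    exact this.2

theorem IsSol.per {R t : ℝ} {l n : ℕ} {w : ℕ → Bool} {x : ℕ → ℝ} (h : IsSol R t l n w x)
    (i k : ℕ) : x (i + k * n) = x i := by
  induction k with
  | zero => simp
  | succ k ih => rw [Nat.succ_mul, ← Nat.add_assoc, h.1, ih]

theorem IsSol.mod {R t : ℝ} {l n : ℕ} {w : ℕ → Bool} {x : ℕ → ℝ} (h : IsSol R t l n w x)
    (i : ℕ) : x (i % n) = x i := by
  conv_rhs => rw [← Nat.mod_add_div' i n]
  rw [h.per]

/-- Every value of a solution is the image of the value at a predecessor. -/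
theorem IsSol.pred {R t : ℝ} {l n : ℕ} {w : ℕ → Bool} {x : ℕ → ℝ} (h : IsSol R t l n w x)
    (hn : 0 < n) (j : ℕ) :
    x j = phi R t (w ((j + l * (n - 1)) % n)) (x (j + l * (n - 1))) := by
  rw [← (h.2 _).2.2]
  have : j + l * (n - 1) + l = j + l * n := by
    obtain ⟨m, rfl⟩ : ∃ m, n = m + 1 := ⟨n - 1, by omega⟩
    simp only [Nat.add_sub_cancel]
    ring
  rw [this, h.per]

/-- The recursion for an index `i < n`. -/
theorem IsSol.step {R t : ℝ} {l n : ℕ} {w : ℕ → Bool} {x : ℕ → ℝ} (h : IsSol R t l n w x)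
    {i : ℕ} (hi : i < n) : x (i + l) = phi R t (w i) (x i) := by
  rw [(h.2 i).2.2, Nat.mod_eq_of_lt hi]

end FBP
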