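import Mathlib

/-!
# Project FBP (MP_233d20_an): a pair of binary matrices without the finiteness property

Letters: `false` is a, `true` is b.  A word is a pair `(n, w)` with `w : ℕ → Bool`; only the
letters `w i`, `i < n`, matter.  The substitution is `a → ab`, `b → aa` (period doubling).
Parameters: pairs `(R, t)` of small positive reals.
-/

set_option autoImplicit false

namespace FBP

open Finset

/-- The action of a letter on directions: a multiplies by `R`, b is `z ↦ R + t/(1-z)`. -/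
noncomputable def phi (R t : ℝ) (b : Bool) (z : ℝ) : ℝ :=
  if b then R + t / (1 - z) else R * z

/-- `x` is the periodic solution of lag `l` along the cyclic word `(n, w)`. -/
def IsSol (R t : ℝ) (l n : ℕ) (w : ℕ → Bool) (x : ℕ → ℝ) : Prop :=
  (∀ i, x (i + n) = x i) ∧
    ∀ i, 0 ≤ x i ∧ x i ≤ 1 / 2 ∧ x (i + l) = phi R t (w (i % n)) (x i)

/-- The energy of a sequence `x` along the word `(n, w)`. -/
noncomputable def En (n : ℕ) (w : ℕ → Bool) (x : ℕ → ℝ) : ℝ :=
  ∑ i ∈ range n, if w i then -Real.log (1 - x i) else 0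

open Classical in
/-- The solution of lag `l` along `(n, w)` (unique, see `T_SOL`). -/
noncomputable def sol (R t : ℝ) (l n : ℕ) (w : ℕ → Bool) : ℕ → ℝ :=
  if h : ∃ x, IsSol R t l n w x then h.choose else 0

/-- The energy of lag `l` of the word `(n, w)`. -/
noncomputable def Ce (R t : ℝ) (l n : ℕ) (w : ℕ → Bool) : ℝ :=
  En n w (sol R t l n w)

/-- The substituted word: `(2n, sg w)` is the image of `(n, w)` under a → ab, b → aa. -/
def sg (w : ℕ → Bool) (i : ℕ) : Bool :=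
  if i % 2 = 0 then false else !(w (i / 2))

/-- The number of letters b of the word `(n, w)`. -/
def cb (n : ℕ) (w : ℕ → Bool) : ℕ := ((range n).filter (fun i => w i = true)).card

/-- Small parameters. -/
def Sm (R t : ℝ) : Prop := 0 < R ∧ R ≤ 1 / 100 ∧ 0 < t ∧ t ≤ 1 / 100

/-- First parameter of the next level: the root `r` of `R t (1+r)^2 = r (1-R^2)^2`. -/
noncomputable def nR (R t : ℝ) : ℝ :=
  (1 - Real.sqrt (1 - 4 * (R * t) / (1 - R ^ 2) ^ 2)) /
    (1 + Real.sqrt (1 - 4 * (R * t) / (1 - R ^ 2) ^ 2))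

/-- Second parameter of the next level. -/
noncomputable def nt (R t : ℝ) : ℝ := R ^ 2 * (1 - nR R t) ^ 2 / (1 + R ^ 2) ^ 2

/-- `log ((1-R^2)/(1+r))`: the logarithm of the top eigenvalue of `A B`. -/
noncomputable def lam (R t : ℝ) : ℝ := Real.log ((1 - R ^ 2) / (1 + nR R t))

/-- `log ((1+R^2)/(1-r))`. -/
noncomputable def bet (R t : ℝ) : ℝ := Real.log ((1 + R ^ 2) / (1 - nR R t))

/-- The weight of a letter b. -/
noncomputable def eta (R t : ℝ) : ℝ := bet R t - lam R t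

/-- The constant per letter in the renormalisation. -/
noncomputable def kap (R t : ℝ) : ℝ := bet R t + lam (nR R t) (nt R t)

/-- The functional. -/
noncomputable def ff (R t Q k : ℝ) (n : ℕ) (w : ℕ → Bool) : ℝ :=
  cb n w * (eta R t + eta Q k) - Ce R t 1 n w - Ce (nR R t) (nt R t) 1 n w
    - Ce Q k 3 n w - Ce (nR Q k) (nt Q k) 3 n w

/-- Good parameters. -/
def Good (R t Q k : ℝ) : Prop :=
  0 < R ∧ R ≤ 1 / 100 ∧ 0 < t ∧ t ≤ 1 / 100 ∧ 0 < Q ∧ 0 < k ∧
    10 * Q ≤ R ∧ 10 * k ≤ t ∧ 3 * R * t ≤ Q ∧ 3 * R ^ 2 ≤ k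

/-- `(n, w)` maximises `ff / length` over all words. -/
def Opt (R t Q k : ℝ) (n : ℕ) (w : ℕ → Bool) : Prop :=
  0 < n ∧ ∀ (m : ℕ) (v : ℕ → Bool), 0 < m →
    (n : ℝ) * ff R t Q k m v ≤ (m : ℝ) * ff R t Q k n w

/-- Change of energy when the last letter of `(n, w)` is deleted. -/
noncomputable def Dl (R t : ℝ) (l n : ℕ) (w : ℕ → Bool) : ℝ :=
  Ce R t l (n - 1) w - Ce R t l n w

/-- Logarithm of the growth of the matrix product along `(n, w)`. -/
noncomputable def GG (R t Q k : ℝ) (n : ℕ) (w : ℕ → Bool) : ℝ :=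
  - Ce R t 1 n w - Ce R t 1 (2 * n) (sg w) - Ce Q k 3 n w - Ce Q k 3 (2 * n) (sg w)

/-! ## Matrices -/

/-- The 2 by 2 pair in the positive basis, scaled by `K`. -/
noncomputable def Mb (K R t : ℝ) (b : Bool) : Matrix (Fin 2) (Fin 2) ℝ :=
  if b then
    !![K * (3 / 4 - 3 * R / 2 - t), K * (3 / 4 + 3 * R / 2 + t);
       K * (1 / 4 - R / 2 - t), K * (1 / 4 + R / 2 + t)]
  else
    !![K * ((1 + R) / 2), K * ((1 - R) / 2); K * ((1 - R) / 2), K * ((1 + R) / 2)]

/-- The pair for the decimation mod 3: `x ⊗ y ⊗ z ↦ y ⊗ z ⊗ (x C)` on row vectors. -/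
def Tm {ι : Type} [DecidableEq ι] (C : Bool → Matrix ι ι ℝ) (b : Bool) :
    Matrix (ι × ι × ι) (ι × ι × ι) ℝ :=
  fun p q => if p.2.1 = q.1 ∧ p.2.2 = q.2.1 then C b p.1 q.2.2 else 0

/-- The pair along the substituted word. -/
noncomputable def Sg {ι : Type} [Fintype ι] (C : Bool → Matrix ι ι ℝ) (b : Bool) :
    Matrix ι ι ℝ := C false * C (!b)

/-- The Kronecker product of two pairs. -/
def Kr {ι κ : Type} (C : Bool → Matrix ι ι ℝ) (D : Bool → Matrix κ κ ℝ) (b : Bool) :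
    Matrix (ι × κ) (ι × κ) ℝ := fun p q => C b p.1 q.1 * D b p.2 q.2

/-- `M` has value `g`: positive row vectors transported along every word, with total
factor `exp (g n w)`. -/
def HasVal {ι : Type} [Fintype ι] (M : Bool → Matrix ι ι ℝ)
    (g : ℕ → (ℕ → Bool) → ℝ) : Prop :=
  ∀ (n : ℕ) (w : ℕ → Bool), 0 < n → ∃ (ξ : ℕ → ι → ℝ) (c : ℕ → ℝ),
    (∀ i j, 0 < ξ i j) ∧ (∀ i < n, Matrix.vecMul (ξ i) (M (w i)) = c i • ξ (i + 1)) ∧
      ξ n = ξ 0 ∧ ∏ i ∈ range n, c i = Real.exp (g n w)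

/-- All entries are natural numbers. -/
def IsNat {ι : Type} (M : Bool → Matrix ι ι ℝ) : Prop :=
  ∀ b i j, ∃ m : ℕ, M b i j = m

/-- The word `ℕ → Bool` of a finite word over `Fin 2`. -/
def ext {m : ℕ} (v : Fin m → Fin 2) (i : ℕ) : Bool :=
  if h : i < m then decide (v ⟨i, h⟩ = 1) else false

end FBP
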