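import Pool.Agent.FBP.Basic

/-!
# Project FBP, BDS: bounds for solutions
-/

set_option autoImplicit false

namespace FBP

open Finset

namespace BDS_

theorem le3 {R t : ℝ} {l n : ℕ} {w : ℕ → Bool} {x : ℕ → ℝ} (hS : Sm R t) (hn : 0 < n)
    (h : IsSol R t l n w x) (j : ℕ) : x j ≤ 3 / 100 := by
  rw [h.pred hn j]
  exact (phi_mem hS _ (h.2 _).1 (h.2 _).2.1).2

theorem phi_le {R t z : ℝ} (hS : Sm R t) (b : Bool) (_h0 : 0 ≤ z) (h1 : z ≤ 3 / 100) :
    phi R t b z ≤ 26 / 25 * (R + t) := by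
  obtain ⟨hR, hR', ht, ht'⟩ := hS
  cases b with
  | false =>
    simp only [phi, Bool.false_eq_true, if_false]
    nlinarith
  | true =>
    simp only [phi, if_true]
    have h2 : 0 < 1 - z := by linarith
    have h3 : t / (1 - z) ≤ 26 / 25 * t := by
      rw [div_le_iff₀ h2]
      nlinarith
    linarith

end BDS_

theorem p_BDS : T_BDS := by
  intro R t l n w x hS hn h
  have h3 := BDS_.le3 hS hn h
  have hb : ∀ i, x i ≤ 26 / 25 * (R + t) := by
    intro i
    rw [h.pred hn i]
    exact BDS_.phi_le hS _ (h.2 _).1 (h3 _)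
  refine ⟨hb, fun i hi => ?_, fun i hi => ?_⟩
  · rw [(h.2 i).2.2, hi]
    obtain ⟨hR, hR', ht, ht'⟩ := hS
    simp only [phi, if_true]
    have h2 : 0 < 1 - x i := by
      have := h3 i
      linarith
    have h4 : t ≤ t / (1 - x i) := by
      rw [le_div_iff₀ h2]
      have := (h.2 i).1
      nlinarith
    linarith
  · rw [(h.2 i).2.2, hi]
    obtain ⟨hR, hR', ht, ht'⟩ := hS
    simp only [phi, Bool.false_eq_true, if_false]
    have := hb i
    nlinarith

end FBP
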