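import Pool.Agent.FBP.Basic

/-!
# Project FBP: the number of letters b of the substituted word
-/

set_option autoImplicit false

namespace FBP

open Finset

theorem CBS_.succ (n : ℕ) (w : ℕ → Bool) :
    cb (n + 1) w = cb n w + if w n = true then 1 else 0 := by
  unfold cb
  rw [range_add_one, filter_insert]
  split_ifs with h
  · rw [card_insert_of_notMem (by simp)]
  · rfl

theorem CBS_.nat (n : ℕ) (w : ℕ → Bool) : cb (2 * n) (sg w) + cb n w = n := by
  induction n with
  | zero => simp [cb]
  | succ n ih =>
    have e1 : sg w (2 * n) = false := by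
      unfold sg
      rw [if_pos (by omega)]
    have e2 : sg w (2 * n + 1) = !(w n) := by
      unfold sg
      rw [if_neg (by omega), show (2 * n + 1) / 2 = n by omega]
    rw [show 2 * (n + 1) = 2 * n + 1 + 1 by ring, CBS_.succ, CBS_.succ, CBS_.succ, e1, e2]
    cases h : w n <;> simp <;> omega

theorem p_CBS : T_CBS := by
  intro n w
  have h := CBS_.nat n w
  have h' : (cb (2 * n) (sg w) : ℝ) + cb n w = n := by exact_mod_cast h
  linarith

end FBP
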