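import Pool.Agent.FBP.Basic

/-!
# Project FBP: CMP, comparison of the energies of `(n-1, w)` and `(n, w)`
-/

set_option autoImplicit false

namespace FBP

open Finset

namespace CMP_

/-- The logarithmic difference is controlled by the positive part of `y - x`. -/
theorem log_le {x y E : ℝ} (hx : x ≤ 1 / 2) (hy : y ≤ 21 / 1000) (hE : y - x ≤ E)
    (hE0 : 0 ≤ E) : -Real.log (1 - y) + Real.log (1 - x) ≤ 103 / 100 * E := by
  have h1 : 0 < 1 - y := by linarith
  have h2 : 0 < 1 - x := by linarith
  have h3 : Real.log ((1 - x) / (1 - y)) ≤ (1 - x) / (1 - y) - 1 :=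
    Real.log_le_sub_one_of_pos (div_pos h2 h1)
  rw [Real.log_div h2.ne' h1.ne'] at h3
  have h4 : (1 - x) / (1 - y) - 1 = (y - x) / (1 - y) := by
    field_simp
    ring
  have h5 : (y - x) / (1 - y) ≤ 103 / 100 * E := by
    rw [div_le_iff₀ h1]
    have h6 : 1 ≤ 103 / 100 * (1 - y) := by linarith
    have h7 : E * 1 ≤ E * (103 / 100 * (1 - y)) := mul_le_mul_of_nonneg_left h6 hE0
    linarith
  linarith

/-- The geometric bound. -/
theorem geom (E : ℕ → ℝ) (l N : ℕ) (h0 : ∀ i, 0 ≤ E i)
    (h1 : ∀ i < N, E (i + l) ≤ 1 / 25 * E i) (M : ℕ) (hM : M + l ≤ N) :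
    ∑ k ∈ range M, E (k + l) ≤ 25 / 24 * ∑ k ∈ range l, E (k + l) := by
  have hA : 0 ≤ ∑ k ∈ range l, E (k + l) := Finset.sum_nonneg fun k _ => h0 _
  rcases le_total M l with hl | hl
  · have h2 : ∑ k ∈ range M, E (k + l) ≤ ∑ k ∈ range l, E (k + l) :=
      Finset.sum_le_sum_of_subset_of_nonneg (Finset.range_subset_range.mpr hl)
        fun k _ _ => h0 _
    linarith
  · obtain ⟨m, rfl⟩ : ∃ m, M = l + m := ⟨M - l, by omega⟩
    have h2 : ∑ k ∈ range (l + m), E (k + l) =
        ∑ k ∈ range l, E (k + l) + ∑ k ∈ range m, E (l + k + l) :=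
      Finset.sum_range_add _ _ _
    have h3 : ∑ k ∈ range m, E (l + k + l) ≤ ∑ k ∈ range m, 1 / 25 * E (k + l) := by
      refine Finset.sum_le_sum fun k hk => ?_
      have hk' := Finset.mem_range.mp hk
      have := h1 (l + k) (by omega)
      rw [Nat.add_comm k l]
      exact this
    have h4 : ∑ k ∈ range m, E (k + l) ≤ ∑ k ∈ range (l + m), E (k + l) :=
      Finset.sum_le_sum_of_subset_of_nonneg (Finset.range_subset_range.mpr (by omega))
        fun k _ _ => h0 _
    rw [← Finset.mul_sum] at h3
    linarith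

end CMP_

open CMP_ in
theorem p_CMP (h_BDS : T_BDS) : T_CMP := by
  intro R t l n w x y B hS hl hln hx hy hB
  obtain ⟨N, rfl⟩ : ∃ N, n = N + 1 := ⟨n - 1, by omega⟩
  rw [Nat.add_sub_cancel] at hy ⊢
  have hN : 0 < N := by omega
  have hyb := (h_BDS R t l N w y hS hN hy).1
  have hR := hS.1
  have hR' := hS.2.1
  have ht' := hS.2.2.2
  -- the positive part
  obtain ⟨E, hE⟩ : ∃ E : ℕ → ℝ, ∀ i, E i = max (y i - x i) 0 := ⟨_, fun i => rfl⟩
  have hE0 : ∀ i, 0 ≤ E i := fun i => by rw [hE]; exact le_max_right _ _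
  have hE1 : ∀ i, y i - x i ≤ E i := fun i => by rw [hE]; exact le_max_left _ _
  have hxs : ∀ i < N, x (i + l) = phi R t (w i) (x i) := fun i hi => hx.step (by omega)
  have hys : ∀ i < N, y (i + l) = phi R t (w i) (y i) := fun i hi => hy.step hi
  have hE2 : ∀ i < N, E (i + l) ≤ 1 / 25 * E i := by
    intro i hi
    rw [hE (i + l), hxs i hi, hys i hi]
    rcases le_total (y i) (x i) with h | h
    · have h1 := phi_mono hS (w i) (hy.2 i).1 h (hx.2 i).2.1
      have h2 := hE0 i
      refine max_le ?_ ?_ <;> linarith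
    · have h1 := phi_sub hS (w i) (hx.2 i).1 h (hy.2 i).2.1
      have h2 := hE1 i
      have h3 := hE0 i
      refine max_le ?_ ?_ <;> linarith
  have hE3 : ∀ i < N, w i = false → E (i + l) ≤ R * E i := by
    intro i hi hw
    rw [hE (i + l), hxs i hi, hys i hi, hw]
    simp only [phi, Bool.false_eq_true, if_false]
    have h1 : R * (y i - x i) ≤ R * E i := mul_le_mul_of_nonneg_left (hE1 i) hR.le
    have h2 : 0 ≤ R * E i := mul_nonneg hR.le (hE0 i)
    refine max_le ?_ h2
    linarith
  have hEB : ∀ j < l, E j ≤ B j := by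
    intro j hj
    rw [hE]
    exact max_le (hB j hj).2 (hB j hj).1
  -- the sum of the positive parts
  have hS1 : ∑ i ∈ range N, (if w i then E i else 0) ≤
      25 / 24 * ∑ j ∈ range l, (if w j then B j else R * B j) := by
    obtain ⟨M, hM⟩ : ∃ M, N = l + M := ⟨N - l, by omega⟩
    have h1 : ∑ i ∈ range N, (if w i then E i else 0) =
        ∑ i ∈ range l, (if w i then E i else 0) +
          ∑ k ∈ range M, (if w (l + k) then E (l + k) else 0) := by
      rw [hM]
      exact Finset.sum_range_add _ _ _
    have h2 : ∑ k ∈ range M, (if w (l + k) then E (l + k) else 0) ≤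
        ∑ k ∈ range M, E (k + l) := by
      refine Finset.sum_le_sum fun k _ => ?_
      rw [Nat.add_comm k l]
      split_ifs
      · exact le_rfl
      · exact hE0 _
    have h3 := geom E l N hE0 hE2 M (by omega)
    have h4 : ∑ i ∈ range l, (if w i then E i else 0) + 25 / 24 * ∑ k ∈ range l, E (k + l) ≤
        25 / 24 * ∑ j ∈ range l, (if w j then B j else R * B j) := by
      rw [Finset.mul_sum, Finset.mul_sum, ← Finset.sum_add_distrib]
      refine Finset.sum_le_sum fun j hj => ?_
      have hj' : j < l := Finset.mem_range.mp hj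
      have hb := hEB j hj'
      by_cases hw : w j = true
      · rw [if_pos hw, if_pos hw]
        have := hE2 j (by omega)
        linarith
      · rw [if_neg hw, if_neg hw]
        have hw' : w j = false := by simpa using hw
        have h5 := hE3 j (by omega) hw'
        have h6 : R * E j ≤ R * B j := mul_le_mul_of_nonneg_left hb hR.le
        linarith
    linarith
  -- the energy difference
  have hD : En N w y - En (N + 1) w x =
      ∑ i ∈ range N, (if w i then -Real.log (1 - y i) + Real.log (1 - x i) else 0) -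
        (if w N then -Real.log (1 - x N) else 0) := by
    unfold En
    rw [Finset.sum_range_succ, ← sub_sub, ← Finset.sum_sub_distrib]
    congr 1
    refine Finset.sum_congr rfl fun i _ => ?_
    split_ifs <;> ring
  have hD1 : ∑ i ∈ range N, (if w i then -Real.log (1 - y i) + Real.log (1 - x i) else 0) ≤
      103 / 100 * ∑ i ∈ range N, (if w i then E i else 0) := by
    rw [Finset.mul_sum]
    refine Finset.sum_le_sum fun i _ => ?_
    split_ifs
    · exact log_le (hx.2 i).2.1 (by linarith [hyb i]) (hE1 i) (hE0 i)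
    · simp
  have hD2 : (if w N then x N else 0) ≤ (if w N then -Real.log (1 - x N) else 0) := by
    split_ifs
    · have h1 : 0 < 1 - x N := by linarith [(hx.2 N).2.1]
      have := Real.log_le_sub_one_of_pos h1
      linarith
    · exact le_rfl
  have hpos : 0 ≤ ∑ j ∈ range l, (if w j then B j else R * B j) := by
    refine Finset.sum_nonneg fun j hj => ?_
    have hb := (hB j (Finset.mem_range.mp hj)).1
    split_ifs
    · exact hb
    · exact mul_nonneg hR.le hb
  rw [hD]
  linarith

end FBP
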