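import Pool.Agent.FBP.Basic

/-!
# Project FBP, target CNG: the energy depends only on the letters `w i`, `i < n`
-/

set_option autoImplicit false

namespace FBP

open Finset

namespace CNG_

theorem isSol_congr {R t : ℝ} {l n : ℕ} {w w' : ℕ → Bool} (hn : 0 < n)
    (h : ∀ i < n, w i = w' i) : IsSol R t l n w = IsSol R t l n w' := by
  funext x
  unfold IsSol
  have e : ∀ i, w (i % n) = w' (i % n) := fun i => h _ (Nat.mod_lt i hn)
  simp only [e]

open Classical in
theorem choose_congr {P P' : (ℕ → ℝ) → Prop} (h : P = P') :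
    (if h : ∃ x, P x then h.choose else 0 : ℕ → ℝ) =
      if h : ∃ x, P' x then h.choose else 0 := by
  subst h
  rfl

theorem sol_congr {R t : ℝ} {l n : ℕ} {w w' : ℕ → Bool} (hn : 0 < n)
    (h : ∀ i < n, w i = w' i) : sol R t l n w = sol R t l n w' :=
  choose_congr (isSol_congr hn h)

end CNG_

theorem p_CNG : T_CNG := by
  intro R t l n w w' hn h
  unfold Ce En
  rw [CNG_.sol_congr hn h]
  refine Finset.sum_congr rfl fun i hi => ?_
  rw [h i (Finset.mem_range.mp hi)]

end FBP
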