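import Pool.Agent.FBP.Basic

/-!
# Project FBP: combinatorics of the gaps (COM)
-/

set_option autoImplicit false

namespace FBP

open Finset

namespace COM_

theorem odd_false (u : ℕ → Bool)
    (h1 : ∀ i, ¬ (u i = true ∧ u (i + 1) = true))
    (h2 : ∀ i, ¬ (u i = true ∧ u (i + 1) = false ∧ u (i + 2) = false ∧ u (i + 3) = true))
    (h3 : ∀ i, ¬ (u i = false ∧ u (i + 1) = false ∧ u (i + 2) = false ∧ u (i + 3) = false)) :
    ∀ j i, u i = true → u (i + 2 * j + 1) = false := by
  intro j
  induction j using Nat.strong_induction_on with
  | _ j ih =>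
    intro i hi
    have a1 : u (i + 1) = false := by
      cases hu : u (i + 1) with
      | false => rfl
      | true => exact absurd ⟨hi, hu⟩ (h1 i)
    rcases Nat.eq_zero_or_pos j with hj | hj
    · subst hj
      exact a1
    cases hu2 : u (i + 2) with
    | true =>
      have h := ih (j - 1) (by omega) (i + 2) hu2
      have e : i + 2 + 2 * (j - 1) + 1 = i + 2 * j + 1 := by omega
      rwa [e] at h
    | false =>
      have a3 : u (i + 3) = false := by
        cases hu : u (i + 3) with
        | false => rfl
        | true => exact absurd ⟨hi, a1, hu2, hu⟩ (h2 i)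
      rcases Nat.eq_or_lt_of_le hj with hj1 | hj1
      · have e : i + 2 * j + 1 = i + 3 := by omega
        rw [e]
        exact a3
      · have a4 : u (i + 4) = true := by
          cases hu : u (i + 4) with
          | true => rfl
          | false => exact absurd ⟨a1, hu2, a3, hu⟩ (h3 (i + 1))
        have h := ih (j - 2) (by omega) (i + 4) a4
        have e : i + 4 + 2 * (j - 2) + 1 = i + 2 * j + 1 := by omega
        rwa [e] at h

end COM_

theorem p_COM : T_COM := by
  intro n u hn hper h1 h2 h3
  have hc := COM_.odd_false u h1 h2 h3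
  obtain ⟨i, hi⟩ : ∃ i, u i = true := by
    by_contra hne
    have hall : ∀ i, u i = false := by
      intro i
      cases hu : u i with
      | false => rfl
      | true => exact absurd ⟨i, hu⟩ hne
    exact h3 0 ⟨hall _, hall _, hall _, hall _⟩
  rcases Nat.even_or_odd' n with ⟨m, hm | hm⟩
  · refine ⟨i + 1, m, fun j => !(u (2 * j + 1 + (i + 1))), hm, ?_⟩
    intro j
    rcases Nat.even_or_odd' j with ⟨k, hk | hk⟩
    · have e : j + (i + 1) = i + 2 * k + 1 := by omega
      rw [e, hc k i hi]
      unfold sg
      rw [if_pos (by omega)]
    · unfold sg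
      rw [if_neg (by omega)]
      have e : j / 2 = k := by omega
      rw [e, Bool.not_not, ← hk]
  · exfalso
    have h := hc m i hi
    have e : i + 2 * m + 1 = i + n := by omega
    rw [e, hper i, hi] at h
    exact absurd h (by decide)

end FBP
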