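import Pool.Agent.FBP.Basic

/-!
# Project FBP: cost of a deletion (DEL)
-/

set_option autoImplicit false

namespace FBP

open Finset

namespace DEL_

theorem ce_zero (R t : ℝ) (l : ℕ) : Ce R t l 1 (fun _ => false) = 0 := by
  unfold Ce En
  simp

theorem cb_zero : cb 1 (fun _ => false) = 0 := by
  unfold cb
  simp

theorem ff_zero (R t Q k : ℝ) : ff R t Q k 1 (fun _ => false) = 0 := by
  unfold ff
  rw [ce_zero, ce_zero, ce_zero, ce_zero, cb_zero]
  simp

end DEL_

theorem p_DEL (h_FSG : T_FSG) (h_KAP : T_KAP) : T_DEL := by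
  intro R t Q k n w hG hn hO
  have e1 := h_FSG R t Q k 1 (fun _ => false) hG one_pos
  rw [DEL_.ff_zero, zero_add, Nat.cast_one, one_mul] at e1
  have k1 := h_KAP R t hG.sm1
  have k2 := h_KAP Q k hG.sm2
  have hQ : 0 ≤ 9 / 10 * (Q * (Q + k)) := by
    obtain ⟨h1, h2, h3, h4, h5, h6, h7, h8, h9, h10⟩ := hG
    positivity
  have o1 := hO.2 (2 * 1) (sg (fun _ => false)) (by norm_num)
  have o2 := hO.2 (n - 1) w (by omega)
  rw [e1] at o1
  have hn0 : (0 : ℝ) < n := by
    have : 0 < n := by omega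
    exact_mod_cast this
  have hn1 : ((n - 1 : ℕ) : ℝ) = (n : ℝ) - 1 := by
    rw [Nat.cast_sub (by omega), Nat.cast_one]
  rw [hn1] at o2
  have o3 : (n : ℝ) * (9 / 10 * (R * (R + t))) ≤ 2 * ff R t Q k n w := by
    have h1 : (n : ℝ) * (9 / 10 * (R * (R + t))) ≤ n * (kap R t + kap Q k) :=
      mul_le_mul_of_nonneg_left (by linarith) hn0.le
    have h2 : ((2 * 1 : ℕ) : ℝ) = 2 := by norm_num
    rw [h2] at o1
    linarith
  have o4 : (n : ℝ) * (9 / 20 * (R * (R + t))) ≤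
      n * (ff R t Q k n w - ff R t Q k (n - 1) w) := by
    have h1 : (n : ℝ) * (9 / 20 * (R * (R + t))) = (n : ℝ) * (9 / 10 * (R * (R + t))) / 2 := by
      ring
    rw [h1, mul_sub]
    linarith
  exact le_of_mul_le_mul_left o4 hn0

end FBP
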