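import Pool.Agent.FBP.Basic

/-!
# Project FBP: DSC, the descent
-/

set_option autoImplicit false

namespace FBP

open Finset

namespace DSC_

theorem idx (n i s c : ℕ) (hn : 0 < n) (hc : c ≤ s) (hs : s ≤ 8) :
    (8 * n - c + (i + s)) % n = (i + (s - c)) % n := by
  have h : 8 * n - c + (i + s) = i + (s - c) + n * 8 := by omega
  rw [h, Nat.add_mul_mod_self_left]

end DSC_

theorem p_DSC (h_ORP : T_ORP) (h_FBB : T_FBB) (h_FGP : T_FGP) (h_FAA : T_FAA)
    (h_COM : T_COM) (h_FSG : T_FSG) : T_DSC := by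
  intro R t Q k n w hG hO
  have hn : 0 < n := hO.1
  have hopt8 : ∀ r, Opt R t Q k (8 * n) (fun j => w ((j + r) % n)) :=
    fun r => h_ORP R t Q k n 8 r w hG (by norm_num) hO
  have hbb : ∀ i, ¬ (w (i % n) = true ∧ w ((i + 1) % n) = true) := by
    rintro i ⟨h1, h2⟩
    refine h_FBB R t Q k (8 * n) _ hG (by omega) (hopt8 (i + 2)) ?_ ?_
    · show w ((8 * n - 1 + (i + 2)) % n) = true
      rw [DSC_.idx n i 2 1 hn (by norm_num) (by norm_num)]
      exact h2
    · show w ((8 * n - 2 + (i + 2)) % n) = true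
      rw [DSC_.idx n i 2 2 hn (by norm_num) (by norm_num)]
      exact h1
  have hgp : ∀ i, ¬ (w (i % n) = true ∧ w ((i + 1) % n) = false ∧
      w ((i + 2) % n) = false ∧ w ((i + 3) % n) = true) := by
    rintro i ⟨h1, h2, h3, h4⟩
    refine h_FGP R t Q k (8 * n) _ hG (by omega) (hopt8 (i + 4)) ?_ ?_ ?_ ?_ ?_
    · show w ((8 * n - 1 + (i + 4)) % n) = true
      rw [DSC_.idx n i 4 1 hn (by norm_num) (by norm_num)]
      exact h4
    · show w ((8 * n - 2 + (i + 4)) % n) = false
      rw [DSC_.idx n i 4 2 hn (by norm_num) (by norm_num)]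
      exact h3
    · show w ((8 * n - 3 + (i + 4)) % n) = false
      rw [DSC_.idx n i 4 3 hn (by norm_num) (by norm_num)]
      exact h2
    · show w ((8 * n - 4 + (i + 4)) % n) = true
      rw [DSC_.idx n i 4 4 hn (by norm_num) (by norm_num)]
      exact h1
    · show w ((0 + (i + 4)) % n) = false
      rw [Nat.zero_add]
      have h5 := hbb (i + 3)
      rw [h4] at h5
      simpa using h5
  have haa : ∀ i, ¬ (w (i % n) = false ∧ w ((i + 1) % n) = false ∧
      w ((i + 2) % n) = false ∧ w ((i + 3) % n) = false) := by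
    rintro i ⟨h1, h2, h3, h4⟩
    refine h_FAA R t Q k (8 * n) _ hG (by omega) (hopt8 (i + 4)) ?_ ?_ ?_ ?_
    · show w ((8 * n - 1 + (i + 4)) % n) = false
      rw [DSC_.idx n i 4 1 hn (by norm_num) (by norm_num)]
      exact h4
    · show w ((8 * n - 2 + (i + 4)) % n) = false
      rw [DSC_.idx n i 4 2 hn (by norm_num) (by norm_num)]
      exact h3
    · show w ((8 * n - 3 + (i + 4)) % n) = false
      rw [DSC_.idx n i 4 3 hn (by norm_num) (by norm_num)]
      exact h2
    · show w ((8 * n - 4 + (i + 4)) % n) = false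
      rw [DSC_.idx n i 4 4 hn (by norm_num) (by norm_num)]
      exact h1
  obtain ⟨r, m, v, hm, hv⟩ := h_COM n (fun i => w (i % n)) hn
    (fun i => by show w ((i + n) % n) = w (i % n); rw [Nat.add_mod_right]) hbb hgp haa
  have hm0 : 0 < m := by omega
  have hO1 := h_ORP R t Q k n 1 r w hG one_pos hO
  have hfun : (fun j => w ((j + r) % n)) = sg v := funext hv
  rw [hfun, one_mul, hm] at hO1
  refine ⟨m, v, hm.symm, hm0, ?_⟩
  intro m' v' hm'
  have h1 := hO1.2 (2 * m') (sg v') (by omega)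
  rw [h_FSG R t Q k m' v' hG hm', h_FSG R t Q k m v hG hm0] at h1
  push_cast at h1
  nlinarith [h1]

end FBP
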