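import Pool.Agent.FBP.Basic

set_option autoImplicit false

namespace FBP

open Finset

theorem p_DTG (h_SOL : T_SOL) (h_CMP : T_CMP) (h_BDS : T_BDS) : T_DTG := by
  intro R t n w hS hn
  obtain ⟨hx, -⟩ := h_SOL R t 3 n w hS (by omega)
  obtain ⟨hy, -⟩ := h_SOL R t 3 (n - 1) w hS (by omega)
  obtain ⟨hy1, -, -⟩ := h_BDS R t 3 (n - 1) w _ hS (by omega) hy
  have hR := hS.1
  have hR1 := hS.2.1
  have ht := hS.2.2.1
  have hB : 0 ≤ 26 / 25 * (R + t) := by positivity
  have key := h_CMP R t 3 n w _ _ (fun _ => 26 / 25 * (R + t)) hS (by norm_num) (by omega)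
    hx hy (fun j _ => ⟨hB, by
      have h1 := hy1 j
      have h2 := (hx.2 j).1
      linarith⟩)
  have hsum : (∑ j ∈ range 3, if w j then 26 / 25 * (R + t) else R * (26 / 25 * (R + t))) ≤
      3 * (26 / 25 * (R + t)) := by
    have : (∑ j ∈ range 3, if w j then 26 / 25 * (R + t) else R * (26 / 25 * (R + t))) ≤
        ∑ _j ∈ range 3, 26 / 25 * (R + t) := by
      refine sum_le_sum fun j _ => ?_
      split_ifs
      · exact le_rfl
      · nlinarith
    simpa using this
  have hlast : 0 ≤ (if w (n - 1) then sol R t 3 n w (n - 1) else 0) := by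
    split_ifs
    · exact (hx.2 _).1
    · exact le_rfl
  unfold Dl Ce
  linarith

end FBP
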