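import Pool.Agent.FBP.Basic

set_option autoImplicit false

namespace FBP

open Finset

theorem p_END (h_FIN : T_FIN) (h_BIG : T_BIG) (h_LFT : T_LFT) (h_SPR : T_SPR)
    (h_GCG : T_GCG) : T_END := by
  intro H
  obtain ⟨N, M, c, hN, hnat, hval⟩ := h_BIG
  obtain ⟨N', C, hN', hbin, hval'⟩ := h_LFT N M _ hN hnat hval
  have hnn : ∀ b i j, 0 ≤ C b i j := by
    intro b i j
    rcases hbin b i j with h | h <;> rw [h] <;> norm_num
  have hsp := h_SPR N' C _ hN' hnn hval'
  obtain ⟨k, w, hk, hw⟩ := H N' (fun i => (C (decide (i = 1))).map (fun x : ℝ => (x : ℂ))) (by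
    intro i a b
    rcases hbin (decide (i = 1)) a b with h | h
    · left; simp [Matrix.map_apply, h]
    · right; simp [Matrix.map_apply, h])
  obtain ⟨m, v, hm, hv⟩ := h_FIN k (ext w) hk
  set v' : Fin m → Fin 2 := fun j => if v j then 1 else 0 with hv'
  have hvv : ∀ i < m, ext v' i = v i := by
    intro i hi
    simp only [ext, hi, dif_pos, hv']
    by_cases h : v i = true
    · simp [h]
    · simp only [Bool.not_eq_true] at h
      simp [h]
  have hG := h_GCG (1 / 100) (1 / 100) (1 / 1000) (1 / 1000) m (ext v') v hm hvv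
  have key := hw m v' hm
  rw [hsp m v' hm, hsp k w hk, hG] at key
  rw [← ENNReal.ofReal_pow (Real.exp_pos _).le, ← ENNReal.ofReal_pow (Real.exp_pos _).le,
    ENNReal.ofReal_le_ofReal_iff (by positivity), ← Real.exp_nat_mul, ← Real.exp_nat_mul,
    Real.exp_le_exp] at key
  nlinarith

end FBP
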