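import Pool.Agent.FBP.Basic

/-!
# Project FBP: target ETA
-/

set_option autoImplicit false

namespace FBP

open Finset

theorem p_ETA (h_PAR : T_PAR) (h_PB : T_PB) : T_ETA := by
  intro R t hs
  obtain ⟨hr0, hr1, -⟩ := h_PAR R t hs
  obtain ⟨-, hr2, -, -⟩ := h_PB R t hs
  obtain ⟨hR, hR', ht, ht'⟩ := hs
  unfold eta bet lam
  generalize nR R t = r at hr0 hr1 hr2 ⊢
  have hRR : R ^ 2 ≤ 1 / 10000 := by nlinarith
  have hRR0 : 0 < R ^ 2 := by positivity
  have hRt : R * t ≤ 1 / 10000 := by nlinarith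
  have hRt0 : 0 < R * t := by positivity
  have hr3 : r ≤ 2 / 10000 := by linarith
  have e1 : 0 < 1 - r := by linarith
  have e2 : 0 < 1 - R ^ 2 := by linarith
  have e3 : 0 < 1 + r := by linarith
  have e4 : 0 < 1 + R ^ 2 := by linarith
  have hX : Real.log ((1 + R ^ 2) / (1 - r)) - Real.log ((1 - R ^ 2) / (1 + r)) =
      Real.log ((1 + R ^ 2) * (1 + r) / ((1 - R ^ 2) * (1 - r))) := by
    rw [← Real.log_div (by positivity) (by positivity)]
    congr 1
    field_simp
  rw [hX]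
  have hX1 : (1 + R ^ 2) * (1 + r) / ((1 - R ^ 2) * (1 - r)) - 1 =
      2 * (R ^ 2 + r) / ((1 - R ^ 2) * (1 - r)) := by
    field_simp
    ring
  have hpos : 0 < (1 - R ^ 2) * (1 - r) := by positivity
  have hden : 9990 / 10000 ≤ (1 - R ^ 2) * (1 - r) := by nlinarith
  constructor
  · apply Real.log_nonneg
    have : 0 ≤ 2 * (R ^ 2 + r) / ((1 - R ^ 2) * (1 - r)) := by positivity
    linarith
  · have hl := Real.log_le_sub_one_of_pos
      (show 0 < (1 + R ^ 2) * (1 + r) / ((1 - R ^ 2) * (1 - r)) by positivity)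
    rw [hX1] at hl
    refine hl.trans ?_
    rw [div_le_iff₀ hpos]
    have h5 : 21 / 10 * (R * (R + t)) * (9990 / 10000) ≤
        21 / 10 * (R * (R + t)) * ((1 - R ^ 2) * (1 - r)) := by
      apply mul_le_mul_of_nonneg_left hden
      positivity
    refine le_trans ?_ h5
    nlinarith

end FBP
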