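import Pool.Agent.FBP.Basic

/-!
# Project FBP: existence of the periodic solution
-/

set_option autoImplicit false

namespace FBP

open Finset

namespace EXI_

/-- The map on the values of one period. -/
noncomputable def Fm {R t : ℝ} (h : Sm R t) (l : ℕ) {n : ℕ} (hn : 0 < n) (w : ℕ → Bool)
    (x : Fin n → Set.Icc (0 : ℝ) (1 / 2)) : Fin n → Set.Icc (0 : ℝ) (1 / 2) := fun j =>
  ⟨phi R t (w ((j + l * (n - 1)) % n)) (x ⟨(j + l * (n - 1)) % n, Nat.mod_lt _ hn⟩),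
    (phi_mem h _ (x _).2.1 (x _).2.2).1,
    (phi_mem h _ (x _).2.1 (x _).2.2).2.trans (by norm_num)⟩

theorem Fm_contr {R t : ℝ} (h : Sm R t) (l : ℕ) {n : ℕ} (hn : 0 < n) (w : ℕ → Bool) :
    ContractingWith (1 / 25 : NNReal) (Fm h l hn w) := by
  refine ⟨?_, LipschitzWith.of_dist_le_mul fun x y => ?_⟩
  · rw [← NNReal.coe_lt_coe]
    push_cast
    norm_num
  · have h0 : 0 ≤ ((1 / 25 : NNReal) : ℝ) * dist x y := by positivity
    rw [dist_pi_le_iff h0]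
    intro j
    have h1 := dist_le_pi_dist x y ⟨(j + l * (n - 1)) % n, Nat.mod_lt _ hn⟩
    have h2 := phi_lip h (w ((j + l * (n - 1)) % n))
      (x ⟨(j + l * (n - 1)) % n, Nat.mod_lt _ hn⟩).2.1
      (x ⟨(j + l * (n - 1)) % n, Nat.mod_lt _ hn⟩).2.2
      (y ⟨(j + l * (n - 1)) % n, Nat.mod_lt _ hn⟩).2.1
      (y ⟨(j + l * (n - 1)) % n, Nat.mod_lt _ hn⟩).2.2
    rw [Subtype.dist_eq, Real.dist_eq] at h1
    rw [Subtype.dist_eq, Real.dist_eq]
    have h3 : ((1 / 25 : NNReal) : ℝ) = 1 / 25 := by push_cast; norm_num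
    rw [h3]
    refine le_trans h2 ?_
    linarith

theorem idx {l n : ℕ} (hn : 0 < n) (i : ℕ) :
    ((i + l) % n + l * (n - 1)) % n = i % n := by
  rw [Nat.mod_add_mod]
  have : i + l + l * (n - 1) = i + l * n := by
    obtain ⟨m, rfl⟩ : ∃ m, n = m + 1 := ⟨n - 1, by omega⟩
    simp only [Nat.add_sub_cancel]
    ring
  rw [this, Nat.add_mul_mod_self_right]

end EXI_

open EXI_ in
theorem p_EXI : T_EXI := by
  intro R t l n w h hn
  have : Nonempty (Fin n → Set.Icc (0 : ℝ) (1 / 2)) :=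
    ⟨fun _ => ⟨0, le_refl _, by norm_num⟩⟩
  have : CompleteSpace (Set.Icc (0 : ℝ) (1 / 2)) := isClosed_Icc.completeSpace_coe
  set x := ContractingWith.fixedPoint (Fm h l hn w) (Fm_contr h l hn w) with hx
  have hfix : Fm h l hn w x = x := (Fm_contr h l hn w).fixedPoint_isFixedPt
  refine ⟨fun i => (x ⟨i % n, Nat.mod_lt _ hn⟩ : ℝ), fun i => ?_, fun i => ⟨?_, ?_, ?_⟩⟩
  · simp only [Nat.add_mod_right]
  · exact (x _).2.1
  · exact (x _).2.2
  · show (x ⟨(i + l) % n, Nat.mod_lt _ hn⟩ : ℝ) =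
      phi R t (w (i % n)) (x ⟨i % n, Nat.mod_lt _ hn⟩)
    have h1 : (x ⟨(i + l) % n, Nat.mod_lt _ hn⟩ : ℝ) =
        (Fm h l hn w x ⟨(i + l) % n, Nat.mod_lt _ hn⟩ : ℝ) := by rw [hfix]
    rw [h1]
    simp only [Fm, idx hn]

end FBP
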