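import Pool.Agent.FBP.Basic

/-!
# Project FBP: target FAA
-/

set_option autoImplicit false

namespace FBP

open Finset

theorem FAA_cb (n : ℕ) (w : ℕ → Bool) (hn : 1 ≤ n) (h : w (n - 1) = false) :
    cb n w = cb (n - 1) w := by
  obtain ⟨m, rfl⟩ : ∃ m, n = m + 1 := ⟨n - 1, by omega⟩
  simp only [Nat.add_sub_cancel] at h ⊢
  unfold cb
  rw [Finset.range_add_one, Finset.filter_insert]
  simp [h]

theorem p_FAA (h_DEL : T_DEL) (h_DAA : T_DAA) (h_DTA : T_DTA) (h_SMN : T_SMN) (h_PB : T_PB) :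
    T_FAA := by
  intro R t Q k n w hG hn hO h1 h2 h3 h4
  have hD := h_DEL R t Q k n w hG (by omega) hO
  have s1 := hG.sm1
  have s2 := hG.sm2
  have s3 := h_SMN R t s1
  have s4 := h_SMN Q k s2
  obtain ⟨p1, p2, p3, p4⟩ := h_PB R t s1
  obtain ⟨q1, q2, q3, q4⟩ := h_PB Q k s2
  have a1 := h_DAA R t n w s1 (by omega) h1 h2 h3 h4
  have a2 := h_DAA _ _ n w s3 (by omega) h1 h2 h3 h4
  have a3 := h_DTA Q k n w s2 hn h1 h2 h3 h4
  have a4 := h_DTA _ _ n w s4 hn h1 h2 h3 h4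
  have hcb := FAA_cb n w (by omega) h1
  unfold ff at hD
  rw [hcb] at hD
  unfold Dl at a1 a2 a3 a4
  obtain ⟨g1, g2, g3, g4, g5, g6, g7, g8, g9, g10⟩ := hG
  obtain ⟨r1, r2, r3, r4⟩ := s3
  obtain ⟨u1, u2, u3, u4⟩ := s4
  have hS : 0 < R * (R + t) := by positivity
  have b1 : R ^ 3 * (R + t) ≤ 1 / 10000 * (R * (R + t)) := by
    have : R ^ 2 ≤ 1 / 10000 := by nlinarith
    have e : R ^ 3 * (R + t) = R ^ 2 * (R * (R + t)) := by ring
    rw [e]
    exact mul_le_mul_of_nonneg_right this hS.le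
  have c2 : nR R t + nt R t ≤ 1001 / 1000 * (R * (R + t)) := by nlinarith [sq_nonneg R]
  have b2 : nR R t ^ 3 * (nR R t + nt R t) ≤ 1 / 1000 * (1001 / 1000 * (R * (R + t))) := by
    have e1 : nR R t ^ 3 ≤ 1 / 1000 := by
      have := pow_le_pow_left₀ r1.le r2 3
      linarith [this, (by norm_num : ((1 : ℝ) / 100) ^ 3 ≤ 1 / 1000)]
    exact mul_le_mul e1 c2 (by positivity) (by norm_num)
  have b3 : Q * (Q + k) ≤ 1 / 100 * (R * (R + t)) := by
    have e1 : Q ≤ 1 / 10 * R := by linarith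
    have e2 : Q + k ≤ 1 / 10 * (R + t) := by linarith
    have := mul_le_mul e1 e2 (by positivity) (by positivity)
    linarith [this]
  have c4 : nR Q k + nt Q k ≤ 1001 / 1000 * (Q * (Q + k)) := by nlinarith [sq_nonneg Q]
  have b4 : nR Q k * (nR Q k + nt Q k) ≤ 1 / 100 * (1001 / 1000 * (Q * (Q + k))) :=
    mul_le_mul u2 c4 (by positivity) (by norm_num)
  nlinarith [hD, a1, a2, a3, a4, b1, b2, b3, b4, hS]

end FBP
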