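import Pool.Agent.FBP.Basic

set_option autoImplicit false

namespace FBP

open Finset

theorem p_FIX : T_FIX := by
  intro R t l n w x z hS hn hx hz0 hz1 hz i
  obtain ⟨j, -, hmax⟩ := (range n).exists_max_image x ⟨0, by simpa using hn⟩
  have hle : ∀ k, x k ≤ x j := by
    intro k
    rw [← hx.mod k]
    exact hmax _ (mem_range.mpr (Nat.mod_lt _ hn))
  refine (hle i).trans ?_
  by_contra hcon
  have hzM : z < x j := lt_of_not_ge hcon
  have hM := (hx.2 j).2.1
  have hM0 := (hx.2 j).1
  have h1 := hx.pred hn j
  set b := w ((j + l * (n - 1)) % n) with hb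
  set k := j + l * (n - 1) with hk
  have h2 := phi_mono hS b (hx.2 k).1 (hle k) hM
  rw [← h1] at h2
  cases hbb : b with
  | false =>
    rw [hbb] at h2
    simp only [phi, Bool.false_eq_true, if_false] at h2
    have hR := hS.2.1
    nlinarith
  | true =>
    rw [hbb] at h2
    have h3 := (phi_sub hS true hz0 hzM.le hM).2
    have h4 : phi R t true z = z := by
      simp only [phi, if_true]
      exact hz
    rw [h4] at h3
    linarith

end FBP
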