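import Pool.Agent.FBP.Basic

/-!
# Project FBP: the functional of rotations and powers
-/

set_option autoImplicit false

namespace FBP

open Finset

theorem p_FRP (h_RP : T_RP) (h_RPC : T_RPC) (h_SMN : T_SMN) : T_FRP := by
  intro R t Q k n K r w hg hn hK
  have s1 := hg.sm1
  have s2 := hg.sm2
  have s3 := h_SMN R t s1
  have s4 := h_SMN Q k s2
  unfold ff
  rw [h_RP R t 1 n K r w s1 hn hK, h_RP (nR R t) (nt R t) 1 n K r w s3 hn hK,
    h_RP Q k 3 n K r w s2 hn hK, h_RP (nR Q k) (nt Q k) 3 n K r w s4 hn hK,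
    h_RPC n K r w hn]
  push_cast
  ring

end FBP
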