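import Pool.Agent.FBP.Basic

/-!
# Project FBP: FSG, renormalisation of the functional
-/

set_option autoImplicit false

namespace FBP

open Finset

theorem p_FSG (h_SGE : T_SGE) (h_CBS : T_CBS) (h_SMN : T_SMN) : T_FSG := by
  intro R t Q k n w hG hn
  have hS1 := hG.sm1
  have hS2 := hG.sm2
  have a1 := h_SGE R t 0 n w hS1 hn
  have a2 := h_SGE (nR R t) (nt R t) 0 n w (h_SMN R t hS1) hn
  have a3 := h_SGE Q k 1 n w hS2 hn
  have a4 := h_SGE (nR Q k) (nt Q k) 1 n w (h_SMN Q k hS2) hn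
  have a5 := h_CBS n w
  norm_num at a1 a2 a3 a4
  unfold ff eta kap
  rw [a1, a2, a3, a4, a5]
  ring

end FBP
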