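import Pool.Agent.FBP.Basic

/-!
# Project FBP, targets GCG and FCG: dependence on the first letters only
-/

set_option autoImplicit false

namespace FBP

open Finset

namespace GCG_

lemma sg_eq {n : ℕ} {w w' : ℕ → Bool} (h : ∀ i < n, w i = w' i) :
    ∀ i < 2 * n, sg w i = sg w' i := by
  intro i hi
  unfold sg
  rw [h (i / 2) (by omega)]

lemma cb_eq {n : ℕ} {w w' : ℕ → Bool} (h : ∀ i < n, w i = w' i) : cb n w = cb n w' := by
  unfold cb
  congr 1
  apply Finset.filter_congr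
  intro i hi
  rw [h i (Finset.mem_range.mp hi)]

end GCG_

theorem p_GCG (h_CNG : T_CNG) : T_GCG := by
  intro R t Q k n w w' hn h
  unfold GG
  rw [h_CNG R t 1 n w w' hn h, h_CNG Q k 3 n w w' hn h,
    h_CNG R t 1 (2 * n) _ _ (by omega) (GCG_.sg_eq h),
    h_CNG Q k 3 (2 * n) _ _ (by omega) (GCG_.sg_eq h)]

theorem p_FCG (h_CNG : T_CNG) : T_FCG := by
  intro R t Q k n w w' hn h
  unfold ff
  rw [h_CNG R t 1 n w w' hn h, h_CNG Q k 3 n w w' hn h,
    h_CNG (nR R t) (nt R t) 1 n w w' hn h, h_CNG (nR Q k) (nt Q k) 3 n w w' hn h,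
    GCG_.cb_eq h]

end FBP
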