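import Pool.Agent.FBP.Basic

/-!
# FBP, target GDN: good parameters stay good
-/

set_option autoImplicit false

namespace FBP

open Finset

theorem p_GDN (h_PB : T_PB) : T_GDN := by
  intro R t Q k hG
  obtain ⟨hR, hR1, ht, ht1, hQ, hk, hQR, hkt, hRtQ, hRk⟩ := hG
  obtain ⟨a1, a2, a3, a4⟩ := h_PB R t ⟨hR, hR1, ht, ht1⟩
  obtain ⟨b1, b2, b3, b4⟩ := h_PB Q k ⟨hQ, by linarith, hk, by linarith⟩
  have hRt : 0 < R * t := mul_pos hR ht
  have hQk : 0 < Q * k := mul_pos hQ hk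
  have hR2 : 0 < R ^ 2 := by positivity
  have hQ2 : 0 < Q ^ 2 := by positivity
  have hr0 : 0 < nR R t := lt_of_lt_of_le hRt a1
  have hr0' : 0 < nR Q k := lt_of_lt_of_le hQk b1
  have ht0 : 0 < nt R t := by linarith
  have ht0' : 0 < nt Q k := by linarith
  have hRt1 : R * t ≤ 1 / 100 * (1 / 100) := mul_le_mul hR1 ht1 ht.le (by norm_num)
  have hR21 : R ^ 2 ≤ 1 / 100 * (1 / 100) := by
    rw [sq]; exact mul_le_mul hR1 hR1 hR.le (by norm_num)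
  -- `100 Q k ≤ R t`
  have h1 : (10 * Q) * (10 * k) ≤ R * t := mul_le_mul hQR hkt (by positivity) hR.le
  -- `100 Q² ≤ R²`
  have h2 : (10 * Q) ^ 2 ≤ R ^ 2 := pow_le_pow_left₀ (by positivity) hQR 2
  -- `9 R t R² ≤ Q k`
  have h3 : (3 * R * t) * (3 * R ^ 2) ≤ Q * k := mul_le_mul hRtQ hRk (by positivity) hQ.le
  -- `9 (R t)² ≤ Q²`
  have h4 : (3 * R * t) ^ 2 ≤ Q ^ 2 := pow_le_pow_left₀ (by positivity) hRtQ 2
  refine ⟨hr0, by linarith, ht0, by linarith, hr0', ht0', ?_, ?_, ?_, ?_⟩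
  · nlinarith
  · nlinarith
  · have h5 : nR R t * nt R t ≤ (1001 / 1000 * (R * t)) * R ^ 2 :=
      mul_le_mul a2 a4 ht0.le (by positivity)
    have h6 : 0 < R * t * R ^ 2 := by positivity
    nlinarith
  · have h5 : nR R t ^ 2 ≤ (1001 / 1000 * (R * t)) ^ 2 := pow_le_pow_left₀ hr0.le a2 2
    have h6 : 0 < (R * t) ^ 2 := by positivity
    nlinarith

end FBP
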