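import Pool.Agent.FBP.Basic

set_option autoImplicit false

namespace FBP

open Finset

theorem p_GGF (h_SGE : T_SGE) : T_GGF := by
  intro R t Q k n w hG hn
  obtain ⟨hR0, hR, ht0, ht, hQ0, hk0, hQR, hkt, _, _⟩ := hG
  have h1 : Sm R t := ⟨hR0, hR, ht0, ht⟩
  have h2 : Sm Q k := ⟨hQ0, by linarith, hk0, by linarith⟩
  have e1 := h_SGE R t 0 n w h1 hn
  have e2 := h_SGE Q k 1 n w h2 hn
  have e3 : (2 * 0 + 1 : ℕ) = 1 := rfl
  have e4 : (2 * 1 + 1 : ℕ) = 3 := rfl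
  rw [e3] at e1
  rw [e4] at e2
  unfold GG ff eta
  rw [e1, e2]
  ring

end FBP
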