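import Pool.Agent.FBP.Basic

set_option autoImplicit false

namespace FBP

open Finset

namespace HV3_

/-- the direction with parameter `z` -/
noncomputable def v (z : ℝ) : Fin 2 → ℝ := ![1 / 2 - z, 1 / 2 + z]

theorem v_pos {z : ℝ} (h0 : 0 ≤ z) (h1 : z < 1 / 2) (j : Fin 2) : 0 < v z j := by
  fin_cases j
  · simp only [v, Fin.zero_eta, Matrix.cons_val_zero]
    linarith
  · simp only [v, Fin.mk_one, Matrix.cons_val_one, Matrix.cons_val_fin_one]
    linarith

theorem tm_mul (C : Bool → Matrix (Fin 2) (Fin 2) ℝ) (f g h : Fin 2 → ℝ) (b : Bool)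
    (a' b' c' : Fin 2) :
    Matrix.vecMul (fun p : Fin 2 × Fin 2 × Fin 2 => f p.1 * g p.2.1 * h p.2.2) (Tm C b)
      (a', b', c') = g a' * h b' * Matrix.vecMul f (C b) c' := by
  simp only [Matrix.vecMul, dotProduct, Fintype.sum_prod_type, Tm, Fin.sum_univ_two]
  fin_cases a' <;> fin_cases b' <;> simp <;> ring

theorem v_mul (K R t z : ℝ) (b : Bool) (hz : z < 1) :
    Matrix.vecMul (v z) (Mb K R t b) =
      (K * (if b then 1 - z else 1)) • v (phi R t b z) := by
  have h1 : (1 - z) ≠ 0 := by linarith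
  cases b
  · ext j
    fin_cases j
    · simp [Matrix.vecMul, dotProduct, Mb, v, phi, Fin.sum_univ_two]
      ring
    · simp [Matrix.vecMul, dotProduct, Mb, v, phi, Fin.sum_univ_two]
      ring
  · ext j
    fin_cases j
    · simp [Matrix.vecMul, dotProduct, Mb, v, phi, Fin.sum_univ_two]
      field_simp
      ring
    · simp [Matrix.vecMul, dotProduct, Mb, v, phi, Fin.sum_univ_two]
      field_simp
      ring

theorem prod_eq (K : ℝ) (hK : 0 < K) (n : ℕ) (w : ℕ → Bool) (x : ℕ → ℝ)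
    (hx : ∀ i, x i < 1) :
    ∏ i ∈ range n, K * (if w i then 1 - x i else 1) =
      Real.exp (n * Real.log K - En n w x) := by
  unfold En
  rw [prod_mul_distrib, prod_const, card_range, Real.exp_sub, Real.exp_nat_mul,
    Real.exp_log hK, Real.exp_sum, div_eq_mul_inv, ← prod_inv_distrib]
  congr 1
  refine prod_congr rfl fun i _ => ?_
  split_ifs
  · rw [Real.exp_neg, inv_inv, Real.exp_log (by linarith [hx i])]
  · simp

end HV3_

open HV3_

theorem p_HV3 (h_SOL : T_SOL) (h_BDS : T_BDS) : T_HV3 := by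
  intro K R t hK hS n w hn
  obtain ⟨hx, -⟩ := h_SOL R t 3 n w hS hn
  obtain ⟨hb, -, -⟩ := h_BDS R t 3 n w _ hS hn hx
  set x := sol R t 3 n w with hxd
  have h0 : ∀ i, 0 ≤ x i := fun i => (hx.2 i).1
  have h1 : ∀ i, x i < 1 / 2 := fun i => by
    have h2 := hb i
    have h3 := hS.2.1
    have h4 := hS.2.2.2
    linarith
  refine ⟨fun i p => v (x i) p.1 * v (x (i + 1)) p.2.1 * v (x (i + 2)) p.2.2,
    fun i => K * (if w i then 1 - x i else 1), ?_, ?_, ?_, ?_⟩
  · intro i p
    exact mul_pos (mul_pos (v_pos (h0 _) (h1 _) _) (v_pos (h0 _) (h1 _) _))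
      (v_pos (h0 _) (h1 _) _)
  · intro i hi
    ext ⟨a', b', c'⟩
    rw [tm_mul, v_mul K R t (x i) (w i) (by linarith [h1 i]), ← hx.step hi]
    simp only [Pi.smul_apply, smul_eq_mul]
    rw [show i + 1 + 1 = i + 2 from rfl, show i + 1 + 2 = i + 3 from rfl]
    ring
  · funext p
    simp only
    have e : ∀ k, x (n + k) = x (0 + k) := fun k => by
      rw [add_comm n k, zero_add]
      exact hx.1 k
    have e0 : x n = x 0 := by simpa using e 0
    rw [e 1, e 2, e0]
  · rw [prod_eq K hK n w x (fun i => by linarith [h1 i])]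
    rfl

end FBP
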