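import Pool.Agent.FBP.Basic

set_option autoImplicit false

namespace FBP

open Finset

theorem p_NAT : T_NAT := by
  refine ⟨?_, ?_, ?_, ?_, ?_⟩
  · intro b i j
    cases b
    · fin_cases i <;> fin_cases j
      · exact ⟨202, by norm_num [Mb]⟩
      · exact ⟨198, by norm_num [Mb]⟩
      · exact ⟨198, by norm_num [Mb]⟩
      · exact ⟨202, by norm_num [Mb]⟩
    · fin_cases i <;> fin_cases j
      · exact ⟨290, by norm_num [Mb]⟩
      · exact ⟨310, by norm_num [Mb]⟩
      · exact ⟨94, by norm_num [Mb]⟩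
      · exact ⟨106, by norm_num [Mb]⟩
  · intro b i j
    cases b
    · fin_cases i <;> fin_cases j
      · exact ⟨2002, by norm_num [Mb]⟩
      · exact ⟨1998, by norm_num [Mb]⟩
      · exact ⟨1998, by norm_num [Mb]⟩
      · exact ⟨2002, by norm_num [Mb]⟩
    · fin_cases i <;> fin_cases j
      · exact ⟨2990, by norm_num [Mb]⟩
      · exact ⟨3010, by norm_num [Mb]⟩
      · exact ⟨994, by norm_num [Mb]⟩
      · exact ⟨1006, by norm_num [Mb]⟩
  · intro ι _ C hC b p q
    unfold Tm
    split_ifs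
    · exact hC b _ _
    · exact ⟨0, by simp⟩
  · intro ι _ C hC b i j
    choose f hf using hC
    refine ⟨∑ k, f false i k * f (!b) k j, ?_⟩
    unfold Sg
    rw [Matrix.mul_apply]
    push_cast
    refine sum_congr rfl fun k _ => ?_
    rw [hf, hf]
  · intro ι κ C D hC hD b p q
    obtain ⟨m, hm⟩ := hC b p.1 q.1
    obtain ⟨n, hn⟩ := hD b p.2 q.2
    exact ⟨m * n, by unfold Kr; rw [hm, hn]; push_cast; rfl⟩

end FBP
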