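import Pool.Agent.FBP.Basic

set_option autoImplicit false

namespace FBP

open Finset

/-- The discriminant of the equation of the next parameter lies in `(0, 1)`. -/
theorem PAR_disc {R t : ℝ} (h : Sm R t) :
    0 < 1 - 4 * (R * t) / (1 - R ^ 2) ^ 2 ∧ 1 - 4 * (R * t) / (1 - R ^ 2) ^ 2 < 1 := by
  obtain ⟨hR, hR1, ht, ht1⟩ := h
  have hRR : R ^ 2 ≤ 1 / 10000 := by nlinarith
  have hD : (9 / 10 : ℝ) ≤ (1 - R ^ 2) ^ 2 := by nlinarith
  have hD0 : (0 : ℝ) < (1 - R ^ 2) ^ 2 := by linarith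
  have hRt : 0 < R * t := mul_pos hR ht
  have hRt1 : R * t ≤ 1 / 10000 := by nlinarith
  have h1 : 4 * (R * t) / (1 - R ^ 2) ^ 2 < 1 := by
    rw [div_lt_one hD0]
    linarith
  have h2 : 0 < 4 * (R * t) / (1 - R ^ 2) ^ 2 := by positivity
  constructor <;> linarith

theorem p_PAR : T_PAR := by
  intro R t h
  obtain ⟨hd0, hd1⟩ := PAR_disc h
  obtain ⟨hR, hR1, ht, ht1⟩ := h
  have hRR : R ^ 2 ≤ 1 / 10000 := by nlinarith
  have hD0 : (0 : ℝ) < 1 - R ^ 2 := by linarith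
  unfold nR
  generalize hv : Real.sqrt (1 - 4 * (R * t) / (1 - R ^ 2) ^ 2) = v
  have hv0 : 0 < v := by rw [← hv]; exact Real.sqrt_pos.mpr hd0
  have hvs : v ^ 2 = 1 - 4 * (R * t) / (1 - R ^ 2) ^ 2 := by
    rw [← hv]; exact Real.sq_sqrt hd0.le
  have hv1 : v < 1 := by nlinarith
  have hD2 : (1 - R ^ 2) ^ 2 ≠ 0 := by positivity
  have hvs2 : 4 * (R * t) = (1 - v ^ 2) * (1 - R ^ 2) ^ 2 := by
    rw [hvs]
    field_simp
    ring
  have hv2 : (0 : ℝ) < 1 + v := by linarith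
  refine ⟨div_pos (by linarith) hv2, ?_, ?_⟩
  · rw [div_lt_one hv2]
    linarith
  · have e1 : 1 + (1 - v) / (1 + v) = 2 / (1 + v) := by
      field_simp
      ring
    rw [e1]
    have e2 : R * t = (1 - v ^ 2) * (1 - R ^ 2) ^ 2 / 4 := by linarith
    rw [e2]
    field_simp
    ring

end FBP
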