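import Pool.Agent.FBP.Basic

/-!
# Project FBP, PER: a nonnegative matrix with a positive left eigenvector
-/

set_option autoImplicit false

namespace FBP

open Finset

namespace PER_

variable {N : ℕ} {M : Matrix (Fin N) (Fin N) ℝ} {ξ : Fin N → ℝ} {μ : ℝ}

lemma coord (hv : Matrix.vecMul ξ M = μ • ξ) (j : Fin N) : ∑ i, ξ i * M i j = μ * ξ j := by
  have h := congrFun hv j
  simpa [Matrix.vecMul, dotProduct] using h

lemma mu_nonneg (hN : 0 < N) (hM : ∀ i j, 0 ≤ M i j) (hξ : ∀ i, 0 < ξ i)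
    (hv : Matrix.vecMul ξ M = μ • ξ) : 0 ≤ μ := by
  have h := coord hv ⟨0, hN⟩
  have h2 : 0 ≤ ∑ i, ξ i * M i ⟨0, hN⟩ :=
    Finset.sum_nonneg fun i _ => mul_nonneg (hξ i).le (hM i _)
  rw [h] at h2
  exact nonneg_of_mul_nonneg_left h2 (hξ _)

lemma mem_spec (hN : 0 < N) (hξ : ∀ i, 0 < ξ i) (hv : Matrix.vecMul ξ M = μ • ξ) :
    (μ : ℂ) ∈ spectrum ℂ (M.map (fun x : ℝ => (x : ℂ))) := by
  rw [spectrum.mem_iff, Matrix.isUnit_iff_isUnit_det, isUnit_iff_ne_zero, not_not,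
    ← Matrix.exists_vecMul_eq_zero_iff]
  refine ⟨fun i => (ξ i : ℂ), ?_, ?_⟩
  · intro h
    have h1 := congrFun h ⟨0, hN⟩
    have h2 : ((ξ ⟨0, hN⟩ : ℝ) : ℂ) = 0 := h1
    exact (hξ _).ne' (Complex.ofReal_eq_zero.1 h2)
  · rw [Matrix.vecMul_sub, Algebra.algebraMap_eq_smul_one, Matrix.vecMul_smul,
      Matrix.vecMul_one]
    ext j
    have h1 : (∑ i, (ξ i : ℂ) * (M i j : ℂ)) = (μ : ℂ) * (ξ j : ℂ) := by
      exact_mod_cast congrArg (fun x : ℝ => (x : ℂ)) (coord hv j)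
    simp only [Pi.sub_apply, Pi.smul_apply, smul_eq_mul, Pi.zero_apply, Matrix.vecMul,
      dotProduct, Matrix.map_apply]
    rw [h1, sub_self]

lemma le_mu (hM : ∀ i j, 0 ≤ M i j) (hξ : ∀ i, 0 < ξ i)
    (hv : Matrix.vecMul ξ M = μ • ξ) {z : ℂ}
    (hz : z ∈ spectrum ℂ (M.map (fun x : ℝ => (x : ℂ)))) : ‖z‖ ≤ μ := by
  rw [spectrum.mem_iff, Matrix.isUnit_iff_isUnit_det, isUnit_iff_ne_zero, not_not,
    ← Matrix.exists_mulVec_eq_zero_iff] at hz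
  obtain ⟨v, hv0, hvz⟩ := hz
  rw [Matrix.sub_mulVec, Algebra.algebraMap_eq_smul_one, Matrix.smul_mulVec,
    Matrix.one_mulVec, sub_eq_zero] at hvz
  have h1 : ∀ i, ‖z‖ * ‖v i‖ ≤ ∑ j, M i j * ‖v j‖ := by
    intro i
    have h2 := congrFun hvz i
    simp only [Pi.smul_apply, smul_eq_mul, Matrix.mulVec, dotProduct, Matrix.map_apply] at h2
    rw [← norm_mul, h2]
    refine (norm_sum_le _ _).trans (Finset.sum_le_sum fun j _ => ?_)
    rw [norm_mul, Complex.norm_real, Real.norm_of_nonneg (hM i j)]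
  have h3 : ‖z‖ * ∑ i, ξ i * ‖v i‖ ≤ μ * ∑ i, ξ i * ‖v i‖ := by
    calc ‖z‖ * ∑ i, ξ i * ‖v i‖ = ∑ i, ξ i * (‖z‖ * ‖v i‖) := by
          rw [Finset.mul_sum]
          exact Finset.sum_congr rfl fun i _ => by ring
      _ ≤ ∑ i, ξ i * ∑ j, M i j * ‖v j‖ :=
          Finset.sum_le_sum fun i _ => mul_le_mul_of_nonneg_left (h1 i) (hξ i).le
      _ = ∑ i, ∑ j, ξ i * M i j * ‖v j‖ := by
          refine Finset.sum_congr rfl fun i _ => ?_
          rw [Finset.mul_sum]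
          exact Finset.sum_congr rfl fun j _ => by ring
      _ = ∑ j, ∑ i, ξ i * M i j * ‖v j‖ := Finset.sum_comm
      _ = ∑ j, μ * (ξ j * ‖v j‖) := by
          refine Finset.sum_congr rfl fun j _ => ?_
          rw [← Finset.sum_mul, coord hv j]
          ring
      _ = μ * ∑ i, ξ i * ‖v i‖ := by rw [Finset.mul_sum]
  have h4 : 0 < ∑ i, ξ i * ‖v i‖ := by
    obtain ⟨i, hi⟩ := Function.ne_iff.1 hv0
    refine Finset.sum_pos' (fun i _ => mul_nonneg (hξ i).le (norm_nonneg _))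
      ⟨i, Finset.mem_univ i, mul_pos (hξ i) (norm_pos_iff.2 hi)⟩
  exact le_of_mul_le_mul_right h3 h4

end PER_

theorem p_PER : T_PER := by
  intro N M ξ μ hN hM hξ hv
  have h0 : 0 ≤ μ := PER_.mu_nonneg hN hM hξ hv
  unfold spectralRadius
  refine le_antisymm (iSup₂_le fun z hz => ?_) ?_
  · rw [ENNReal.ofReal, ENNReal.coe_le_coe, ← NNReal.coe_le_coe, coe_nnnorm,
      Real.coe_toNNReal _ h0]
    exact PER_.le_mu hM hξ hv hz
  · refine le_trans ?_ (le_iSup₂ (f := fun (k : ℂ)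
      (_ : k ∈ spectrum ℂ (M.map (fun x : ℝ => (x : ℂ)))) => ((‖k‖₊ : NNReal) : ENNReal))
      (μ : ℂ) (PER_.mem_spec hN hξ hv))
    rw [ENNReal.ofReal, ENNReal.coe_le_coe, ← NNReal.coe_le_coe, coe_nnnorm,
      Real.coe_toNNReal _ h0, Complex.norm_real, Real.norm_of_nonneg h0]

end FBP
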