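import Pool.Agent.FBP.Basic

/-!
# Project FBP: job RPC
-/

set_option autoImplicit false

namespace FBP

open Finset

namespace RPC_

theorem cb_eq (n : ℕ) (w : ℕ → Bool) : cb n w = Nat.count (fun i => w i = true) n := by
  unfold cb
  rw [Nat.count_eq_card_filter_range]

theorem cgr (n : ℕ) (u u' : ℕ → Bool) (h : ∀ k, u k = u' k) :
    Nat.count (fun k => u k = true) n = Nat.count (fun k => u' k = true) n := by
  have : u = u' := funext h
  rw [this]

theorem shift (n : ℕ) (w : ℕ → Bool) (r : ℕ) :
    Nat.count (fun j => w ((j + r) % n) = true) n =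
      Nat.count (fun j => w (j % n) = true) n := by
  induction r with
  | zero => rfl
  | succ r ih =>
    rw [← ih]
    have h1 := Nat.count_succ' (fun j => w ((j + r) % n) = true) n
    have h2 := Nat.count_succ (fun j => w ((j + r) % n) = true) n
    have h3 := cgr n (fun k => w ((k + 1 + r) % n)) (fun j => w ((j + (r + 1)) % n))
      (fun k => by show w _ = w _; rw [show k + 1 + r = k + (r + 1) by ring])
    have h4 : (n + r) % n = (0 + r) % n := by
      rw [Nat.add_mod_left, zero_add]
    rw [h4] at h2
    rw [h3] at h1
    omega

theorem base (n : ℕ) (w : ℕ → Bool) :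
    Nat.count (fun j => w (j % n) = true) n = cb n w := by
  rw [cb_eq, Nat.count_eq_card_filter_range, Nat.count_eq_card_filter_range]
  congr 1
  apply Finset.filter_congr
  intro i hi
  rw [Nat.mod_eq_of_lt (Finset.mem_range.1 hi)]

end RPC_

open RPC_ in
theorem p_RPC : T_RPC := by
  intro n K r w _
  rw [cb_eq]
  induction K with
  | zero => simp
  | succ K ih =>
    rw [Nat.succ_mul, Nat.count_add, ih, Nat.succ_mul]
    congr 1
    have h := cgr n (fun k => w ((K * n + k + r) % n)) (fun k => w ((k + r) % n))
      (fun k => by
        show w _ = w _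
        rw [show K * n + k + r = (k + r) + K * n by ring, Nat.add_mul_mod_self_right])
    rw [h, shift, base]

end FBP
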