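import Pool.Agent.FBP.Basic

/-!
# Project FBP: SGE, the energy of the substituted word
-/

set_option autoImplicit false

namespace FBP

open Finset

namespace SGE_

/-- Split a sum over `range (2n)` into even and odd indices. -/
theorem sum_two (f : ℕ → ℝ) (n : ℕ) :
    ∑ i ∈ range (2 * n), f i = ∑ m ∈ range n, (f (2 * m) + f (2 * m + 1)) := by
  induction n with
  | zero => simp
  | succ n ih =>
    rw [Nat.mul_succ, Finset.sum_range_succ, Finset.sum_range_succ, ih, Finset.sum_range_succ]
    ring

/-- The sum over a period does not depend on the start. -/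
theorem sum_shift (h : ℕ → ℝ) (n : ℕ) (hp : ∀ j, h (j + n) = h j) (s : ℕ) :
    ∑ m ∈ range n, h (m + s) = ∑ m ∈ range n, h m := by
  induction s with
  | zero => simp
  | succ s ih =>
    rw [← ih]
    have h1 : ∑ m ∈ range (n + 1), h (m + s) = ∑ m ∈ range n, h (m + s) + h (n + s) :=
      Finset.sum_range_succ _ _
    have h2 : ∑ m ∈ range (n + 1), h (m + s) = ∑ m ∈ range n, h (m + 1 + s) + h (0 + s) :=
      Finset.sum_range_succ' _ _
    have h3 : h (n + s) = h (0 + s) := by
      rw [Nat.add_comm n s, hp, Nat.zero_add]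
    have h4 : ∑ m ∈ range n, h (m + (s + 1)) = ∑ m ∈ range n, h (m + 1 + s) := by
      refine Finset.sum_congr rfl fun m _ => ?_
      congr 1
      omega
    rw [h4]
    linarith

/-- A periodic sequence telescopes to zero. -/
theorem tele (D : ℕ → ℝ) (n l : ℕ) (hp : ∀ j, D (j + n) = D j) :
    ∑ m ∈ range n, (D (m + l) - D m) = 0 := by
  rw [Finset.sum_sub_distrib, sum_shift D n hp l, sub_self]

end SGE_

open SGE_ in
theorem p_SGE (h_SOL : T_SOL) (h_SMN : T_SMN) (h_PAR : T_PAR) (h_RP : T_RP) (h_RPC : T_RPC)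
    (h_SGS : T_SGS) (h_SGI : T_SGI) : T_SGE := by
  intro R t u n w hS hn
  have hS' := h_SMN R t hS
  obtain ⟨hr0, hr1, _⟩ := h_PAR R t hS
  obtain ⟨hysol, _⟩ := h_SOL (nR R t) (nt R t) (2 * u + 1) n (fun j => w ((j + u) % n)) hS' hn
  have hCe : Ce (nR R t) (nt R t) (2 * u + 1) n w =
      En n (fun j => w ((j + u) % n))
        (sol (nR R t) (nt R t) (2 * u + 1) n (fun j => w ((j + u) % n))) := by
    have := h_RP (nR R t) (nt R t) (2 * u + 1) n 1 u w hS' hn one_pos
    rw [one_mul, Nat.cast_one, one_mul] at this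
    rw [← this]
    rfl
  have hcb : cb n (fun j => w ((j + u) % n)) = cb n w := by
    have := h_RPC n 1 u w hn
    rwa [one_mul, one_mul] at this
  rw [hCe, ← hcb]
  generalize sol (nR R t) (nt R t) (2 * u + 1) n (fun j => w ((j + u) % n)) = y at hysol ⊢
  obtain ⟨z, hzp, hz, hyz, hzs, hx⟩ := h_SGS R t u n w y hS hn hysol
  have hxs := (h_SOL R t (2 * u + 1) (2 * n) (sg w) hS (by omega)).2 _ hx
  have hR := hS.1
  have hR' := hS.2.1
  have hr' := hS'.2.1
  obtain ⟨c, hc⟩ : ∃ c : ℝ, R * (1 + nR R t) / (1 + R ^ 2 * nR R t) = c := ⟨_, rfl⟩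
  have hc1 : c ≤ 1 := by
    rw [← hc, div_le_one (by positivity)]
    have h1 : R * (1 + nR R t) ≤ 1 / 100 * (1 + 1 / 100) := by
      apply mul_le_mul hR' (by linarith) (by linarith) (by norm_num)
    have h2 : 0 ≤ R ^ 2 * nR R t := by positivity
    linarith
  have hc0 : 0 ≤ c := by
    rw [← hc]; positivity
  have hDpos : ∀ j, 0 < 1 - c * z j := by
    intro j
    have h1 : c * z j ≤ 1 * (1 / 2) :=
      mul_le_mul hc1 (hz j).2 (hz j).1 (by norm_num)
    linarith
  have hRz : ∀ j, 0 < 1 - R * z j := by
    intro j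
    have h1 : R * z j ≤ 1 / 100 * (1 / 2) :=
      mul_le_mul hR' (hz j).2 (hz j).1 (by norm_num)
    linarith
  have hlampos : 0 < (1 - R ^ 2) / (1 + nR R t) := by
    apply div_pos _ (by linarith)
    have : R ^ 2 ≤ (1 / 100) ^ 2 := pow_le_pow_left₀ hR.le hR' 2
    linarith
  have hbetpos : 0 < (1 + R ^ 2) / (1 - nR R t) := by
    apply div_pos (by positivity) (by linarith)
  have hypos : ∀ j, 0 < 1 - y j := by
    intro j
    have := (hysol.2 j).2.1
    linarith
  -- the function of one letter
  have key : ∀ j, (if w ((j + u) % n) then (0 : ℝ) else -Real.log (1 - R * z j)) =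
      -lam R t + ((if w ((j + u) % n) then lam R t - bet R t else 0) +
        (if w ((j + u) % n) then -Real.log (1 - y j) else 0)) +
        (Real.log (1 - c * z (j + (2 * u + 1))) - Real.log (1 - c * z j)) := by
    intro j
    obtain ⟨hA, hB⟩ := h_SGI R t (z j) (y j) hS (hz j).1 (hz j).2 (hyz j)
    rw [hc] at hA hB
    have hst := hzs j
    by_cases hw : w ((j + u) % n) = true
    · rw [if_pos hw] at hst
      rw [if_pos hw, if_pos hw, if_pos hw, hst, hB,
        Real.log_mul hbetpos.ne' (mul_pos (hypos j) (hDpos j)).ne',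
        Real.log_mul (hypos j).ne' (hDpos j).ne']
      unfold bet
      ring
    · rw [if_neg hw] at hst
      rw [if_neg hw, if_neg hw, if_neg hw]
      rw [← hst] at hA
      have h1 := congrArg Real.log hA
      rw [Real.log_mul (hRz j).ne' (hDpos _).ne', Real.log_mul hlampos.ne' (hDpos j).ne'] at h1
      have h2 : lam R t = Real.log ((1 - R ^ 2) / (1 + nR R t)) := rfl
      rw [← h2] at h1
      linarith
  have hD : ∑ j ∈ range n, (Real.log (1 - c * z (j + (2 * u + 1))) - Real.log (1 - c * z j)) =
      0 :=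
    tele (fun j => Real.log (1 - c * z j)) n (2 * u + 1) (fun j => by simp only [hzp])
  have hE : Ce R t (2 * u + 1) (2 * n) (sg w) =
      ∑ j ∈ range n, (if w ((j + u) % n) then (0 : ℝ) else -Real.log (1 - R * z j)) := by
    unfold Ce
    rw [← hxs]
    unfold En
    rw [sum_two]
    have hper : ∀ j, (fun j => if w ((j + u) % n) then (0 : ℝ) else -Real.log (1 - R * z j))
        (j + n) = (fun j => if w ((j + u) % n) then (0 : ℝ) else -Real.log (1 - R * z j)) j := by
      intro j
      have e1 : (j + n + u) % n = (j + u) % n := by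
        have : j + n + u = j + u + n := by omega
        rw [this, Nat.add_mod_right]
      simp only [e1, hzp]
    rw [← sum_shift (fun j => if w ((j + u) % n) then (0 : ℝ) else -Real.log (1 - R * z j)) n
      hper (u * (n - 1))]
    refine Finset.sum_congr rfl fun m hm => ?_
    have hm' : m < n := Finset.mem_range.mp hm
    have e0 : sg w (2 * m) = false := by
      unfold sg
      rw [if_pos (by omega)]
    have e1 : sg w (2 * m + 1) = !(w m) := by
      unfold sg
      rw [if_neg (by omega)]
      congr 2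
      omega
    have e2 : (m + u * (n - 1) + u) % n = m := by
      have : m + u * (n - 1) + u = m + n * u := by
        obtain ⟨k, rfl⟩ : ∃ k, n = k + 1 := ⟨n - 1, by omega⟩
        simp only [Nat.add_sub_cancel]
        ring
      rw [this, Nat.add_mul_mod_self_left, Nat.mod_eq_of_lt hm']
    have e3 : (2 * m + 1) % 2 ≠ 0 := by omega
    have e4 : (2 * m + 1) / 2 = m := by omega
    simp only [e0, e1, e2, if_neg e3, e4]
    cases w m <;> simp
  rw [hE, Finset.sum_congr rfl fun j _ => key j, Finset.sum_add_distrib, hD,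
    Finset.sum_add_distrib, Finset.sum_add_distrib]
  have h5 : ∑ j ∈ range n, (if w ((j + u) % n) then lam R t - bet R t else 0) =
      cb n (fun j => w ((j + u) % n)) * (lam R t - bet R t) := by
    rw [← Finset.sum_filter, Finset.sum_const, nsmul_eq_mul]
    rfl
  have h6 : ∑ j ∈ range n, (if w ((j + u) % n) then -Real.log (1 - y j) else 0) =
      En n (fun j => w ((j + u) % n)) y := rfl
  rw [h5, h6, Finset.sum_const, Finset.card_range, nsmul_eq_mul]
  ring

end FBP
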