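import Pool.Agent.FBP.Basic

/-!
# Project FBP: SGI, two identities for the factors
-/

set_option autoImplicit false

namespace FBP

open Finset

theorem p_SGI (h_PAR : T_PAR) : T_SGI := by
  intro R t z y hS hz0 hz1 hy
  obtain ⟨hr0, hr1, h⟩ := h_PAR R t hS
  obtain ⟨hR, hR', ht, ht'⟩ := hS
  set r : ℝ := nR R t with hr
  have e1 : 0 < 1 + R ^ 2 * r := by positivity
  have e2 : 0 < 1 + r := by linarith
  have e3 : 0 < 1 - R * z := by nlinarith
  have e4 : 0 < 1 - r := by linarith
  have e5 : 0 < 1 + R ^ 2 := by positivity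
  refine ⟨?_, ?_⟩
  · have a1 : (1 - R * z) * (1 - R * (1 + r) / (1 + R ^ 2 * r) * (R + t / (1 - R * z))) =
        (1 - R * z) - (1 - R * z) * R * (R * (1 + r) / (1 + R ^ 2 * r)) -
          (R * t * (1 + r) ^ 2) / ((1 + R ^ 2 * r) * (1 + r)) := by
      field_simp
      ring
    rw [a1, h]
    field_simp
    ring
  · have a2 : (1 - y) * (1 - R * (1 + r) / (1 + R ^ 2 * r) * z) =
        (1 - R * (1 + r) / (1 + R ^ 2 * r) * z) -
          ((r + R ^ 2) / (1 + R ^ 2) - R * (1 + r) / (1 + R ^ 2) * z) := by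
      rw [← hy]
      ring
    rw [a2]
    field_simp
    ring

end FBP
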