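import Pool.Agent.FBP.Basic

/-!
# Project FBP: SMN, the next parameters are small
-/

set_option autoImplicit false

namespace FBP

open Finset

theorem p_SMN (h_PAR : T_PAR) (h_PB : T_PB) : T_SMN := by
  intro R t h
  obtain ⟨h1, -, -⟩ := h_PAR R t h
  obtain ⟨-, b2, b3, b4⟩ := h_PB R t h
  obtain ⟨hR, hR', ht, ht'⟩ := h
  refine ⟨h1, ?_, ?_, ?_⟩
  · nlinarith [mul_le_mul hR' ht' ht.le (by norm_num : (0 : ℝ) ≤ 1 / 100)]
  · nlinarith [pow_pos hR 2]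
  · nlinarith [mul_le_mul hR' hR' hR.le (by norm_num : (0 : ℝ) ≤ 1 / 100)]

end FBP
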