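import Pool.Agent.FBP.Basic

/-!
# Project FBP: `sol` is the solution
-/

set_option autoImplicit false

namespace FBP

open Finset

/-- SOL: existence and uniqueness give that `sol` is the solution. -/
theorem p_SOL (h_EXI : T_EXI) (h_UNI : T_UNI) : T_SOL := by
  intro R t l n w hs hn
  have hex : ∃ x, IsSol R t l n w x := h_EXI R t l n w hs hn
  have hsol : sol R t l n w = hex.choose := by
    unfold sol
    exact dif_pos hex
  have h1 : IsSol R t l n w (sol R t l n w) := by
    rw [hsol]
    exact hex.choose_spec
  exact ⟨h1, fun x hx => h_UNI R t l n w x (sol R t l n w) hs hn hx h1⟩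

end FBP
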