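import Pool.Agent.FBP.Defs

/-!
# Project FBP: targets
-/

set_option autoImplicit false

namespace FBP

open Finset

/-! ## Block S: solutions -/

/-- EXI: existence of solutions. -/
def T_EXI : Prop := ∀ (R t : ℝ) (l n : ℕ) (w : ℕ → Bool), Sm R t → 0 < n →
  ∃ x, IsSol R t l n w x

/-- UNI: uniqueness of solutions. -/
def T_UNI : Prop := ∀ (R t : ℝ) (l n : ℕ) (w : ℕ → Bool) (x y : ℕ → ℝ), Sm R t → 0 < n →
  IsSol R t l n w x → IsSol R t l n w y → x = y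

/-- SOL: `sol` is the solution. -/
def T_SOL : Prop := ∀ (R t : ℝ) (l n : ℕ) (w : ℕ → Bool), Sm R t → 0 < n →
  IsSol R t l n w (sol R t l n w) ∧ ∀ x, IsSol R t l n w x → x = sol R t l n w

/-- BDS: bounds for solutions. -/
def T_BDS : Prop := ∀ (R t : ℝ) (l n : ℕ) (w : ℕ → Bool) (x : ℕ → ℝ), Sm R t → 0 < n →
  IsSol R t l n w x →
    (∀ i, x i ≤ 26 / 25 * (R + t)) ∧
    (∀ i, w (i % n) = true → R + t ≤ x (i + l)) ∧
    (∀ i, w (i % n) = false → x (i + l) ≤ 26 / 25 * (R * (R + t)))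

/-- FIX: solutions lie below the fixed point of `phi R t true`. -/
def T_FIX : Prop := ∀ (R t : ℝ) (l n : ℕ) (w : ℕ → Bool) (x : ℕ → ℝ) (z : ℝ), Sm R t →
  0 < n → IsSol R t l n w x → 0 ≤ z → z ≤ 1 / 2 → R + t / (1 - z) = z → ∀ i, x i ≤ z

/-- CNG: the energy depends only on the letters `w i`, `i < n`. -/
def T_CNG : Prop := ∀ (R t : ℝ) (l n : ℕ) (w w' : ℕ → Bool), 0 < n →
  (∀ i < n, w i = w' i) → Ce R t l n w = Ce R t l n w'

/-- RP: rotations and powers. -/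
def T_RP : Prop := ∀ (R t : ℝ) (l n K r : ℕ) (w : ℕ → Bool), Sm R t → 0 < n → 0 < K →
  Ce R t l (K * n) (fun j => w ((j + r) % n)) = K * Ce R t l n w

/-- RPC: rotations and powers, number of letters b. -/
def T_RPC : Prop := ∀ (n K r : ℕ) (w : ℕ → Bool), 0 < n →
  cb (K * n) (fun j => w ((j + r) % n)) = K * cb n w

/-! ## Block P: parameters -/

/-- PAR: the equation of the next parameter. -/
def T_PAR : Prop := ∀ R t : ℝ, Sm R t →
  0 < nR R t ∧ nR R t < 1 ∧ R * t * (1 + nR R t) ^ 2 = nR R t * (1 - R ^ 2) ^ 2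

/-- PB: bounds of the next parameters. -/
def T_PB : Prop := ∀ R t : ℝ, Sm R t →
  R * t ≤ nR R t ∧ nR R t ≤ 1001 / 1000 * (R * t) ∧
    999 / 1000 * R ^ 2 ≤ nt R t ∧ nt R t ≤ R ^ 2

/-- SMN: the next parameters are small. -/
def T_SMN : Prop := ∀ R t : ℝ, Sm R t → Sm (nR R t) (nt R t)

/-- GDN: good parameters stay good. -/
def T_GDN : Prop := ∀ R t Q k : ℝ, Good R t Q k →
  Good (nR R t) (nt R t) (nR Q k) (nt Q k)

/-- ETA: bounds for the weight of a letter b. -/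
def T_ETA : Prop := ∀ R t : ℝ, Sm R t → 0 ≤ eta R t ∧ eta R t ≤ 21 / 10 * (R * (R + t))

/-- KAP: lower bound of the constant. -/
def T_KAP : Prop := ∀ R t : ℝ, Sm R t → 9 / 10 * (R * (R + t)) ≤ kap R t

/-! ## Block R: renormalisation -/

/-- SGS: a solution at the next level gives a solution of the substituted word. -/
def T_SGS : Prop := ∀ (R t : ℝ) (u n : ℕ) (w : ℕ → Bool) (y : ℕ → ℝ), Sm R t → 0 < n →
  IsSol (nR R t) (nt R t) (2 * u + 1) n (fun j => w ((j + u) % n)) y →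
  ∃ z : ℕ → ℝ, (∀ i, z (i + n) = z i) ∧ (∀ i, 0 ≤ z i ∧ z i ≤ 1 / 2) ∧
    (∀ i, y i * (1 - R * (1 + nR R t) / (1 + R ^ 2 * nR R t) * z i) =
      (nR R t + R ^ 2) / (1 + R ^ 2) - R * (1 + nR R t) / (1 + R ^ 2) * z i) ∧
    (∀ j, z (j + (2 * u + 1)) = if w ((j + u) % n) then R ^ 2 * z j
      else R + t / (1 - R * z j)) ∧
    IsSol R t (2 * u + 1) (2 * n) (sg w)
      (fun i => if i % 2 = 0 then z (i / 2) else R * z (i / 2 + u * (n - 1)))

/-- SGI: the two identities for the factors (one letter of the next level). -/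
def T_SGI : Prop := ∀ R t z y : ℝ, Sm R t → 0 ≤ z → z ≤ 1 / 2 →
  y * (1 - R * (1 + nR R t) / (1 + R ^ 2 * nR R t) * z) =
    (nR R t + R ^ 2) / (1 + R ^ 2) - R * (1 + nR R t) / (1 + R ^ 2) * z →
  (1 - R * z) * (1 - R * (1 + nR R t) / (1 + R ^ 2 * nR R t) * (R + t / (1 - R * z))) =
    (1 - R ^ 2) / (1 + nR R t) * (1 - R * (1 + nR R t) / (1 + R ^ 2 * nR R t) * z) ∧
  1 - R * (1 + nR R t) / (1 + R ^ 2 * nR R t) * (R ^ 2 * z) =
    (1 + R ^ 2) / (1 - nR R t) * ((1 - y) *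
      (1 - R * (1 + nR R t) / (1 + R ^ 2 * nR R t) * z))

/-- SGE: the energy of the substituted word. -/
def T_SGE : Prop := ∀ (R t : ℝ) (u n : ℕ) (w : ℕ → Bool), Sm R t → 0 < n →
  Ce R t (2 * u + 1) (2 * n) (sg w) =
    - ((n : ℝ) - cb n w) * lam R t - cb n w * bet R t
      + Ce (nR R t) (nt R t) (2 * u + 1) n w

/-- CBS: number of letters b of the substituted word. -/
def T_CBS : Prop := ∀ (n : ℕ) (w : ℕ → Bool), (cb (2 * n) (sg w) : ℝ) = n - cb n w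

/-- FSG: renormalisation of the functional. -/
def T_FSG : Prop := ∀ (R t Q k : ℝ) (n : ℕ) (w : ℕ → Bool), Good R t Q k → 0 < n →
  ff R t Q k (2 * n) (sg w) =
    ff (nR R t) (nt R t) (nR Q k) (nt Q k) n w + n * (kap R t + kap Q k)

/-- GGF: the growth is the functional plus a constant per letter. -/
def T_GGF : Prop := ∀ (R t Q k : ℝ) (n : ℕ) (w : ℕ → Bool), Good R t Q k → 0 < n →
  GG R t Q k n w = ff R t Q k n w + n * (lam R t + lam Q k)

/-- GCG: the growth depends only on the letters `w i`, `i < n`. -/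
def T_GCG : Prop := ∀ (R t Q k : ℝ) (n : ℕ) (w w' : ℕ → Bool), 0 < n →
  (∀ i < n, w i = w' i) → GG R t Q k n w = GG R t Q k n w'

/-- FCG: the functional depends only on the letters `w i`, `i < n`. -/
def T_FCG : Prop := ∀ (R t Q k : ℝ) (n : ℕ) (w w' : ℕ → Bool), 0 < n →
  (∀ i < n, w i = w' i) → ff R t Q k n w = ff R t Q k n w'

/-- FRP: the functional of rotations and powers. -/
def T_FRP : Prop := ∀ (R t Q k : ℝ) (n K r : ℕ) (w : ℕ → Bool), Good R t Q k → 0 < n →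
  0 < K → ff R t Q k (K * n) (fun j => w ((j + r) % n)) = K * ff R t Q k n w

/-! ## Block D: deletion of the last letter -/

/-- CMP: comparison of the energies of `(n-1, w)` and `(n, w)`. -/
def T_CMP : Prop := ∀ (R t : ℝ) (l n : ℕ) (w : ℕ → Bool) (x y : ℕ → ℝ) (B : ℕ → ℝ),
  Sm R t → 1 ≤ l → l < n → IsSol R t l n w x → IsSol R t l (n - 1) w y →
  (∀ j < l, 0 ≤ B j ∧ y j - x j ≤ B j) →
  En (n - 1) w y - En n w x ≤
    27 / 25 * (∑ j ∈ range l, if w j then B j else R * B j)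
      - (if w (n - 1) then x (n - 1) else 0)

/-- BB0: lag 1, deletion of the last b of bb does not increase the solution at 0. -/
def T_BB0 : Prop := ∀ (R t : ℝ) (n : ℕ) (w : ℕ → Bool) (x y : ℕ → ℝ),
  Sm R t → 2 ≤ n → IsSol R t 1 n w x → IsSol R t 1 (n - 1) w y →
  w (n - 1) = true → w (n - 2) = true → y 0 ≤ x 0

/-- DBB: lag 1, bb. -/
def T_DBB : Prop := ∀ (R t : ℝ) (n : ℕ) (w : ℕ → Bool), Sm R t → 2 ≤ n →
  w (n - 1) = true → w (n - 2) = true → Dl R t 1 n w ≤ - (R + t)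

/-- DBA: lag 1, last letters ab. -/
def T_DBA : Prop := ∀ (R t : ℝ) (n : ℕ) (w : ℕ → Bool), Sm R t → 2 ≤ n →
  w (n - 1) = true → w (n - 2) = false → Dl R t 1 n w ≤ 0

/-- DAA: lag 1, last letters aaaa. -/
def T_DAA : Prop := ∀ (R t : ℝ) (n : ℕ) (w : ℕ → Bool), Sm R t → 5 ≤ n →
  w (n - 1) = false → w (n - 2) = false → w (n - 3) = false → w (n - 4) = false →
  Dl R t 1 n w ≤ 2 * (R ^ 3 * (R + t))

/-- DTG: lag 3, any deletion. -/
def T_DTG : Prop := ∀ (R t : ℝ) (n : ℕ) (w : ℕ → Bool), Sm R t → 8 ≤ n →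
  Dl R t 3 n w ≤ 7 / 2 * (R + t)

/-- DTB: lag 3, baab. -/
def T_DTB : Prop := ∀ (R t : ℝ) (n : ℕ) (w : ℕ → Bool), Sm R t → 8 ≤ n →
  w (n - 1) = true → w (n - 2) = false → w (n - 3) = false → w (n - 4) = true →
  w 0 = false → Dl R t 3 n w ≤ 3 * (R * (R + t)) - (R + t)

/-- DTA: lag 3, aaaa. -/
def T_DTA : Prop := ∀ (R t : ℝ) (n : ℕ) (w : ℕ → Bool), Sm R t → 8 ≤ n →
  w (n - 1) = false → w (n - 2) = false → w (n - 3) = false → w (n - 4) = false →
  Dl R t 3 n w ≤ 4 * (R * (R + t))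

/-! ## Block O: optimal words -/

/-- ORP: rotations and powers of optimal words are optimal. -/
def T_ORP : Prop := ∀ (R t Q k : ℝ) (n K r : ℕ) (w : ℕ → Bool), Good R t Q k →
  0 < K → Opt R t Q k n w → Opt R t Q k (K * n) (fun j => w ((j + r) % n))

/-- DEL: deleting a letter of an optimal word costs at least the mean value. -/
def T_DEL : Prop := ∀ (R t Q k : ℝ) (n : ℕ) (w : ℕ → Bool), Good R t Q k → 2 ≤ n →
  Opt R t Q k n w → 9 / 20 * (R * (R + t)) ≤ ff R t Q k n w - ff R t Q k (n - 1) w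

/-- FBB: an optimal word does not end with bb. -/
def T_FBB : Prop := ∀ (R t Q k : ℝ) (n : ℕ) (w : ℕ → Bool), Good R t Q k → 8 ≤ n →
  Opt R t Q k n w → w (n - 1) = true → w (n - 2) = true → False

/-- FGP: an optimal word beginning with a does not end with baab. -/
def T_FGP : Prop := ∀ (R t Q k : ℝ) (n : ℕ) (w : ℕ → Bool), Good R t Q k → 8 ≤ n →
  Opt R t Q k n w → w (n - 1) = true → w (n - 2) = false → w (n - 3) = false →
  w (n - 4) = true → w 0 = false → False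

/-- FAA: an optimal word does not end with aaaa. -/
def T_FAA : Prop := ∀ (R t Q k : ℝ) (n : ℕ) (w : ℕ → Bool), Good R t Q k → 8 ≤ n →
  Opt R t Q k n w → w (n - 1) = false → w (n - 2) = false → w (n - 3) = false →
  w (n - 4) = false → False

/-- COM: cyclic words without bb, baab, aaaa are rotations of substituted words. -/
def T_COM : Prop := ∀ (n : ℕ) (u : ℕ → Bool), 0 < n → (∀ i, u (i + n) = u i) →
  (∀ i, ¬ (u i = true ∧ u (i + 1) = true)) →
  (∀ i, ¬ (u i = true ∧ u (i + 1) = false ∧ u (i + 2) = false ∧ u (i + 3) = true)) →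
  (∀ i, ¬ (u i = false ∧ u (i + 1) = false ∧ u (i + 2) = false ∧ u (i + 3) = false)) →
  ∃ (r m : ℕ) (v : ℕ → Bool), n = 2 * m ∧ ∀ j, u (j + r) = sg v j

/-- DSC: descent. -/
def T_DSC : Prop := ∀ (R t Q k : ℝ) (n : ℕ) (w : ℕ → Bool), Good R t Q k →
  Opt R t Q k n w → ∃ (m : ℕ) (v : ℕ → Bool), 2 * m = n ∧
    Opt (nR R t) (nt R t) (nR Q k) (nt Q k) m v

/-- THM: there is no optimal word. -/
def T_THM : Prop := ∀ (R t Q k : ℝ) (n : ℕ) (w : ℕ → Bool), Good R t Q k →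
  ¬ Opt R t Q k n w

/-- FIN: no word maximises the mean growth, at the starting parameters. -/
def T_FIN : Prop := ∀ (n : ℕ) (w : ℕ → Bool), 0 < n → ∃ (m : ℕ) (v : ℕ → Bool), 0 < m ∧
  (m : ℝ) * GG (1 / 100) (1 / 100) (1 / 1000) (1 / 1000) n w <
    (n : ℝ) * GG (1 / 100) (1 / 100) (1 / 1000) (1 / 1000) m v

/-! ## Block M: matrices -/

/-- HV1: value of the 2 by 2 pair. -/
def T_HV1 : Prop := ∀ K R t : ℝ, 0 < K → Sm R t →
  HasVal (Mb K R t) (fun n w => n * Real.log K - Ce R t 1 n w)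

/-- HV3: value of the pair for the decimation mod 3. -/
def T_HV3 : Prop := ∀ K R t : ℝ, 0 < K → Sm R t →
  HasVal (Tm (Mb K R t)) (fun n w => n * Real.log K - Ce R t 3 n w)

/-- HVK: Kronecker products. -/
def T_HVK : Prop := ∀ (ι κ : Type) [Fintype ι] [Fintype κ] (C : Bool → Matrix ι ι ℝ)
  (D : Bool → Matrix κ κ ℝ) (g h : ℕ → (ℕ → Bool) → ℝ), HasVal C g → HasVal D h →
  HasVal (Kr C D) (fun n w => g n w + h n w)

/-- HVS: substitution. -/
def T_HVS : Prop := ∀ (ι : Type) [Fintype ι] (C : Bool → Matrix ι ι ℝ)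
  (g : ℕ → (ℕ → Bool) → ℝ), HasVal C g → HasVal (Sg C) (fun n w => g (2 * n) (sg w))

/-- NAT: natural entries. -/
def T_NAT : Prop :=
  IsNat (Mb 400 (1 / 100) (1 / 100)) ∧ IsNat (Mb 4000 (1 / 1000) (1 / 1000)) ∧
  (∀ (ι : Type) [DecidableEq ι] (C : Bool → Matrix ι ι ℝ), IsNat C → IsNat (Tm C)) ∧
  (∀ (ι : Type) [Fintype ι] (C : Bool → Matrix ι ι ℝ), IsNat C → IsNat (Sg C)) ∧
  (∀ (ι κ : Type) (C : Bool → Matrix ι ι ℝ) (D : Bool → Matrix κ κ ℝ),
    IsNat C → IsNat D → IsNat (Kr C D))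

/-- BIG: the big pair. -/
def T_BIG : Prop := ∃ (N : ℕ) (M : Bool → Matrix (Fin N) (Fin N) ℝ) (c : ℝ),
  0 < N ∧ IsNat M ∧ HasVal M (fun n w => n * c +
    GG (1 / 100) (1 / 100) (1 / 1000) (1 / 1000) n w)

/-- PER: a nonnegative matrix with a positive left eigenvector. -/
def T_PER : Prop := ∀ (N : ℕ) (M : Matrix (Fin N) (Fin N) ℝ) (ξ : Fin N → ℝ) (μ : ℝ),
  0 < N → (∀ i j, 0 ≤ M i j) → (∀ i, 0 < ξ i) → Matrix.vecMul ξ M = μ • ξ →
  spectralRadius ℂ (M.map (fun x : ℝ => (x : ℂ))) = ENNReal.ofReal μ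

/-- LFT: the binary lift of a pair with natural entries. -/
def T_LFT : Prop := ∀ (N : ℕ) (M : Bool → Matrix (Fin N) (Fin N) ℝ)
  (g : ℕ → (ℕ → Bool) → ℝ), 0 < N → IsNat M → HasVal M g →
  ∃ (N' : ℕ) (C : Bool → Matrix (Fin N') (Fin N') ℝ), 0 < N' ∧
    (∀ b i j, C b i j = 0 ∨ C b i j = 1) ∧ HasVal C g

/-- SPR: spectral radii of the products of a nonnegative pair with a value. -/
def T_SPR : Prop := ∀ (N : ℕ) (C : Bool → Matrix (Fin N) (Fin N) ℝ)
  (g : ℕ → (ℕ → Bool) → ℝ), 0 < N → (∀ b i j, 0 ≤ C b i j) → HasVal C g →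
  ∀ (m : ℕ) (v : Fin m → Fin 2), 0 < m →
    spectralRadius ℂ (List.ofFn (fun j => (C (decide (v j = 1))).map
      (fun x : ℝ => (x : ℂ)))).prod = ENNReal.ofReal (Real.exp (g m (ext v)))

/-- END: the finiteness property fails for a pair of binary matrices (S04058). -/
def T_END : Prop := ¬ (∀ (n : ℕ) (A : Fin 2 → Matrix (Fin n) (Fin n) ℂ),
    (∀ (i : Fin 2) (a b : Fin n), A i a b = 0 ∨ A i a b = 1) →
    ∃ (k : ℕ) (w : Fin k → Fin 2), 0 < k ∧
      ∀ (m : ℕ) (v : Fin m → Fin 2), 0 < m →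
        spectralRadius ℂ (List.ofFn (fun j => A (v j))).prod ^ k ≤
          spectralRadius ℂ (List.ofFn (fun j => A (w j))).prod ^ m)

end FBP
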